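import Pool.Agent.Q95.AR3

/-!
# Near algebraic relations between `z` (`= e`, `π` or `log q`) and an arbitrary real number `t`

Polynomials `P(X, Y)` are elements of `ℤ[X][Y]`; `P(z, t) = ev z t P`, `hgt P` is the largest
absolute value of a coefficient, and `Box a b P` says that the degree of `P` is at most `a` in `X`
and at most `b` in `Y`.

* Two integer polynomials of bidegree at most `(a, b)`, one of them irreducible and not dividing the
  other one, cannot both be smaller than `c H ^ (-κ)` at `(z, t)`.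
* So irreducible near relations are sparse.
* If in a window `[V, Z]` of scales there are near relations of exponent `γ > κ` at all scales, there
  is a near relation of height at most `K V ^ (a + b)` whose value is at most `K Z ^ (-δ)`.
* There is an exact relation of bidegree at most `(a, b)` between `z` and `t` if and only if there
  are near relations of exponent `γ` at all large scales.

For `z = e` every `κ > 4 a b ² + 2 b` is admissible.
-/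

set_option autoImplicit false

namespace Pool.Agent.Results.MP_a2f59b_nt.AlgebraicRelationsAtAllScales

open Polynomial Polynomial.Bivariate Pool.Agent.Q158.EqD Pool.Agent.Q95.AR

/-- There is a nonzero integer polynomial of bidegree at most `(a, b)` and height at most `H` whose
value at `(z, t)` is at most `H ^ (-γ)`. -/
def Near (z t : ℝ) (a b : ℕ) (γ H : ℝ) : Prop :=
  ∃ P : ℤ[X][Y], P ≠ 0 ∧ Box a b P ∧ (hgt P : ℝ) ≤ H ∧ |ev z t P| ≤ H ^ (-γ)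

/-- The four statements for the pairs `(z, t)`, `t` real, with the exponent `κ`. -/
def Four (z κ : ℝ) (a b : ℕ) : Prop :=
  -- gap principle
  (∀ T : ℝ, ∃ c : ℝ, 0 < c ∧ ∀ t : ℝ, |t| ≤ T → ∀ P Q : ℤ[X][Y], Box a b P → Box a b Q → P ≠ 0 →
    Irreducible Q → ¬ Q ∣ P →
    c * (max (hgt P) (hgt Q) : ℝ) ^ (-κ) ≤ max |ev z t P| |ev z t Q|) ∧
  -- counting
  (∀ T om ρ : ℝ, 1 < ρ → ρ * κ < om → ∃ C : ℝ, ∀ t : ℝ, |t| ≤ T → ∀ (H : ℝ) (S : Set ℤ[X][Y]),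
    3 ≤ H → (∀ P ∈ S, ∀ Q ∈ S, P ≠ Q → ¬ Associated P Q) →
    (∀ P ∈ S, Irreducible P ∧ Box a b P ∧ (hgt P : ℝ) ≤ H ∧ |ev z t P| ≤ (hgt P : ℝ) ^ (-om)) →
    S.Finite ∧ (S.ncard : ℝ) ≤ Real.log (Real.log H) / Real.log ρ + C) ∧
  -- windows
  (∀ T γ δ : ℝ, 0 < δ → κ + δ < γ → ∃ K : ℝ, 1 ≤ K ∧ ∀ t : ℝ, |t| ≤ T → ∀ V Z : ℝ, K ≤ V →
    V ≤ Z → (∀ H ∈ Set.Icc V Z, Near z t a b γ H) →
    ∃ G : ℤ[X][Y], G ≠ 0 ∧ Box a b G ∧ (hgt G : ℝ) ≤ K * V ^ (a + b) ∧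
      |ev z t G| ≤ K * Z ^ (-δ)) ∧
  -- criterion
  (∀ γ : ℝ, κ < γ → ∀ t : ℝ, (∃ P : ℤ[X][Y], P ≠ 0 ∧ Box a b P ∧ ev z t P = 0) ↔
    ∃ H0 : ℝ, ∀ H : ℝ, H0 ≤ H → Near z t a b γ H)

theorem four {z w c : ℝ} {a b : ℕ} (hb : 1 ≤ b) (hw : 0 ≤ w) (hc : 0 < c)
    (hm : TM (2 * b * a) w c z) : Four z (2 * b * (w + 1)) a b := by
  have key : ∀ T : ℝ, ∃ T' : ℝ, 1 ≤ T' ∧ |z| ≤ T' ∧ T ≤ T' := fun T =>
    ⟨max 1 (max |z| T), le_max_left _ _, (le_max_left _ _).trans (le_max_right _ _),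
      (le_max_right _ _).trans (le_max_right _ _)⟩
  refine ⟨fun T => ?_, fun T om ρ hρ hρo => ?_, fun T γ δ hδ hγ => ?_, fun γ hγ t => ?_⟩
  · obtain ⟨T', h1, h2, h3⟩ := key T
    obtain ⟨c1, hc1, h⟩ := gap hb hw hc hm h1 h2
    exact ⟨c1, hc1, fun t ht P Q hP hQ hP0 hQi hdvd =>
      h t (ht.trans h3) P Q hP hQ hP0 hQi hdvd _ (le_max_left _ _) (le_max_right _ _)⟩
  · obtain ⟨T', h1, h2, h3⟩ := key T
    obtain ⟨C, h⟩ := count hb hw hc hm h1 h2 hρ hρo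
    exact ⟨C, fun t ht => h t (ht.trans h3)⟩
  · obtain ⟨T', h1, h2, h3⟩ := key T
    obtain ⟨K, hK, h⟩ := window hb hw hc hm h1 h2 hδ hγ
    exact ⟨K, hK, fun t ht => h t (ht.trans h3)⟩
  · exact crit hb hw hc hm hγ t

theorem four_e {a b : ℕ} (hb : 1 ≤ b) {κ : ℝ} (hκ : 4 * a * b ^ 2 + 2 * b < κ) :
    Four (Real.exp 1) κ a b := by
  have hb1 : (1 : ℝ) ≤ b := by exact_mod_cast hb
  have hb0 : (0 : ℝ) < 2 * b := by linarith
  have ha0 : (0 : ℝ) ≤ a := Nat.cast_nonneg a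
  obtain ⟨η, hη⟩ : ∃ η : ℝ, η = κ / (2 * b) - 1 - 2 * b * a := ⟨_, rfl⟩
  have hη0 : 0 < η := by
    have : 2 * b * a + 1 < κ / (2 * b) := by
      rw [lt_div_iff₀ hb0]
      nlinarith
    linarith
  obtain ⟨c, hc, h⟩ := Pool.Agent.W472.AC.e_measP (2 * b * a) η hη0
  have hw : (0 : ℝ) ≤ (2 * b * a : ℕ) + η := by positivity
  have h4 := four hb hw hc (fun p hp hd H hH hHp => h p hp hd H hH hHp)
  have e : 2 * (b : ℝ) * (((2 * b * a : ℕ) + η) + 1) = κ := by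
    rw [hη]
    push_cast
    field_simp
    ring
  rwa [e] at h4

theorem four_measR {z : ℝ} (hz : MeasR z) {a b : ℕ} (hb : 1 ≤ b) : ∃ κ : ℝ, Four z κ a b := by
  obtain ⟨w, c, hw, hc, h⟩ := hz (2 * b * a)
  exact ⟨_, four hb hw.le hc h⟩

/-- Mathlib's notion of algebraic independence in terms of `ev`. -/
theorem algInd_iff (z t : ℝ) :
    AlgebraicIndependent ℚ ![z, t] ↔ ∀ P : ℤ[X][Y], P ≠ 0 → ev z t P ≠ 0 := by
  have h1 : AlgebraicIndependent ℚ ![z, t] ↔ AlgebraicIndependent ℤ ![z, t] := by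
    constructor
    · intro h
      exact h.restrictScalars (RingHom.injective_int _)
    · intro h
      have : Algebra.IsAlgebraic ℤ ℚ := IsLocalization.isAlgebraic ℚ (nonZeroDivisors ℤ)
      exact h.extendScalars ℚ
  rw [h1]
  let ψ : MvPolynomial (Fin 2) ℤ →ₐ[ℤ] ℤ[X][Y] := MvPolynomial.aeval ![C X, X]
  let θ : ℤ[X][Y] →+* MvPolynomial (Fin 2) ℤ :=
    eval₂RingHom (eval₂RingHom (Int.castRingHom _) (MvPolynomial.X 0)) (MvPolynomial.X 1)
  have hψθ : ∀ P : ℤ[X][Y], ψ (θ P) = P := by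
    intro P
    have : (ψ : MvPolynomial (Fin 2) ℤ →+* ℤ[X][Y]).comp θ = RingHom.id _ := by
      apply Polynomial.ringHom_ext'
      · apply Polynomial.ringHom_ext'
        · exact RingHom.ext_int _ _
        · simp [ψ, θ]
      · simp [ψ, θ]
    exact congrArg (fun h => h P) this
  have hθψ : ∀ p : MvPolynomial (Fin 2) ℤ, θ (ψ p) = p := by
    intro p
    have : θ.comp (ψ : MvPolynomial (Fin 2) ℤ →+* ℤ[X][Y]) = RingHom.id _ := by
      apply MvPolynomial.ringHom_ext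
      · intro r
        simp [ψ, θ]
      · intro i
        fin_cases i <;> simp [ψ, θ]
    exact congrArg (fun h => h p) this
  have hev : ∀ P : ℤ[X][Y], MvPolynomial.aeval ![z, t] (θ P) = ev z t P := by
    intro P
    have : ((MvPolynomial.aeval ![z, t] : MvPolynomial (Fin 2) ℤ →ₐ[ℤ] ℝ) :
        MvPolynomial (Fin 2) ℤ →+* ℝ).comp θ = ev z t := by
      apply Polynomial.ringHom_ext'
      · apply Polynomial.ringHom_ext'
        · exact RingHom.ext_int _ _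
        · simp [θ, ev]
      · simp [θ, ev]
    exact congrArg (fun h => h P) this
  rw [algebraicIndependent_iff]
  constructor
  · intro h P hP hv
    apply hP
    rw [← hψθ P, h (θ P) (by rw [hev]; exact hv), map_zero]
  · intro h p hp
    by_contra hne
    refine h (ψ p) ?_ ?_
    · intro h0
      apply hne
      rw [← hθψ p, h0, map_zero]
    · rw [← hev, hθψ]
      exact hp

theorem exists_box (P : ℤ[X][Y]) : ∃ a b : ℕ, 1 ≤ b ∧ Box a b P := by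
  refine ⟨(Bivariate.swap P).natDegree, P.natDegree + 1, by omega, by omega, ?_⟩
  exact (swap_natDegree_le P _).1 le_rfl

theorem algInd_crit {z : ℝ} {κ : ℕ → ℕ → ℝ} (h : ∀ a b, 1 ≤ b → Four z (κ a b) a b) (t : ℝ)
    (γ : ℕ → ℕ → ℝ) (hγ : ∀ a b, 1 ≤ b → κ a b < γ a b) :
    AlgebraicIndependent ℚ ![z, t] ↔
      ∀ a b : ℕ, 1 ≤ b → ∀ H0 : ℝ, ∃ H : ℝ, H0 ≤ H ∧ ¬ Near z t a b (γ a b) H := by
  rw [algInd_iff]
  constructor
  · intro hind a b hb H0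
    by_contra hcon
    push Not at hcon
    obtain ⟨P, hP0, _, hPv⟩ := ((h a b hb).2.2.2 (γ a b) (hγ a b hb) t).2 ⟨H0, hcon⟩
    exact hind P hP0 hPv
  · intro hall P hP0 hPv
    obtain ⟨a, b, hb, hB⟩ := exists_box P
    obtain ⟨H0, hH0⟩ := ((h a b hb).2.2.2 (γ a b) (hγ a b hb) t).1 ⟨P, hP0, hB, hPv⟩
    obtain ⟨H, hH, hn⟩ := hall a b hb H0
    exact hn (hH0 H hH)

theorem result :
    -- `z = e`
    (∀ a b : ℕ, 1 ≤ b → ∀ κ : ℝ, 4 * a * b ^ 2 + 2 * b < κ → Four (Real.exp 1) κ a b) ∧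
    (∀ γ : ℕ → ℕ → ℝ, (∀ a b, 4 * a * b ^ 2 + 2 * b < γ a b) → ∀ t : ℝ,
      (AlgebraicIndependent ℚ ![Real.exp 1, t] ↔
        ∀ a b : ℕ, 1 ≤ b → ∀ H0 : ℝ, ∃ H : ℝ, H0 ≤ H ∧ ¬ Near (Real.exp 1) t a b (γ a b) H)) ∧
    -- `z = π`, `z = log q`
    (∀ z : ℝ, (z = Real.pi ∨ ∃ q : ℚ, 0 < q ∧ q ≠ 1 ∧ z = Real.log q) →
      ∃ κ : ℕ → ℕ → ℝ, (∀ a b : ℕ, 1 ≤ b → Four z (κ a b) a b) ∧
        ∀ γ : ℕ → ℕ → ℝ, (∀ a b, κ a b < γ a b) → ∀ t : ℝ,
          (AlgebraicIndependent ℚ ![z, t] ↔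
            ∀ a b : ℕ, 1 ≤ b → ∀ H0 : ℝ, ∃ H : ℝ, H0 ≤ H ∧ ¬ Near z t a b (γ a b) H)) := by
  refine ⟨fun a b hb κ hκ => four_e hb hκ, fun γ hγ t => ?_, fun z hz => ?_⟩
  · refine algInd_crit (κ := fun a b => (4 * a * b ^ 2 + 2 * b + γ a b) / 2)
      (fun a b hb => four_e hb ?_) t γ fun a b _ => ?_
    · have := hγ a b
      linarith
    · have := hγ a b
      linarith
  · have hM : MeasR z := by
      rcases hz with rfl | ⟨q, hq, hq1, rfl⟩
      · exact measR_pi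
      · exact measR_log q hq hq1
    have h : ∀ a b : ℕ, ∃ κ : ℝ, 1 ≤ b → Four z κ a b := by
      intro a b
      by_cases hb : 1 ≤ b
      · obtain ⟨κ, hκ⟩ := four_measR hM (a := a) hb
        exact ⟨κ, fun _ => hκ⟩
      · exact ⟨0, fun h => absurd h hb⟩
    choose κ hκ using h
    exact ⟨κ, hκ, fun γ hγ t => algInd_crit hκ t γ fun a b _ => hγ a b⟩

end Pool.Agent.Results.MP_a2f59b_nt.AlgebraicRelationsAtAllScales
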