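import Pool.Agent.H301R2.SSE.Nine

/-!
# All nine numbers at once

Let `c ≠ 0` be a real algebraic number. For positive real algebraic numbers `u`, `v` we consider the
pair `(u π, v e ^ c)` in place of `(π, e)` and the nine numbers formed with it.
-/

set_option autoImplicit false

namespace Pool.Agent.Results.MP_a2f59b_nt.AllNineAtOnce

open Finset
open Pool.Agent.H301R2.Nine Pool.Agent.H301R2.SSE

/-- The nine numbers of the problem, in the order of the problem, formed with `x` and `y` instead of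
`π` and `e`. -/
noncomputable def nine (x y : ℝ) : Fin 9 → ℝ :=
  ![x + y, x - y, x * y, x / y, x ^ x, y ^ y, x ^ y, x ^ √2, y ^ (x ^ 2)]

/-- Any `r + 2` members of `S` satisfy a nontrivial multiplicative relation whose exponents have sum
zero: `S` is contained in a coset of a multiplicative group of rank at most `r`. -/
def Thin (r : ℕ) (S : Set ℝ) : Prop :=
  ∀ u : Fin (r + 2) → ℝ, (∀ i, u i ∈ S) →
    ∃ n : Fin (r + 2) → ℤ, n ≠ 0 ∧ ∑ i, n i = 0 ∧ ∏ i, u i ^ n i = 1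

/-! ### Baker's theorem for dependent logarithms -/

theorem rel0 {ι : Type} [Fintype ι] (ω : ι → ℂ) (halg : ∀ i, IsAlgebraic ℚ (Complex.exp (ω i)))
    (c₀ : ℂ) (hc₀ : IsAlgebraic ℚ c₀) (β : ι → ℂ) (hβ : ∀ i, IsAlgebraic ℚ (β i))
    (h : c₀ + ∑ i, β i * ω i = 0) :
    c₀ = 0 ∧ ∀ φ : ℂ →ₗ[ℚ] ℚ, ∑ i, (φ (β i) : ℂ) * ω i = 0 := by
  classical
  obtain ⟨κ, a, ha, hsp, hli⟩ := exists_linearIndependent' ℚ ω
  have : Finite κ := Finite.of_injective a ha
  let _ : Fintype κ := Fintype.ofFinite κ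
  have hrep : ∀ w : ι, ∃ q : κ → ℚ, ω w = ∑ k, (q k : ℂ) * ω (a k) := by
    intro w
    have h1 : ω w ∈ Submodule.span ℚ (Set.range (ω ∘ a)) := by
      rw [hsp]; exact Submodule.subset_span ⟨w, rfl⟩
    rw [Submodule.mem_span_range_iff_exists_fun] at h1
    obtain ⟨q, hq⟩ := h1
    refine ⟨q, ?_⟩
    rw [← hq]
    refine Finset.sum_congr rfl fun k _ => ?_
    rw [Rat.smul_def]
    rfl
  choose q hq using hrep
  have hsw : ∀ γ : ι → ℂ, ∑ i, γ i * ω i = ∑ k, (∑ i, γ i * (q i k : ℂ)) * ω (a k) := by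
    intro γ
    simp only [Finset.sum_mul]
    rw [Finset.sum_comm]
    refine Finset.sum_congr rfl fun w _ => ?_
    conv_lhs => rw [hq w, Finset.mul_sum]
    refine Finset.sum_congr rfl fun k _ => ?_
    ring
  rw [hsw] at h
  let e := Fintype.equivFin κ
  have hb := Pool.Agent.H297R2.baker_inhom (ι := Fin (Fintype.card κ))
    (fun k => ω (a (e.symm k))) (fun k => halg _)
    (hli.comp e.symm e.symm.injective)
    c₀ hc₀ (fun k => ∑ i, β i * (q i (e.symm k) : ℂ)) (by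
      intro k
      rw [← mem_QB]
      refine sum_mem fun w _ => mul_mem (mem_QB.2 (hβ w)) ?_
      rw [mem_QB]
      exact isAlgebraic_algebraMap (q w (e.symm k))) (by
      rw [Equiv.sum_comp e.symm (fun k => (∑ i, β i * (q i k : ℂ)) * ω (a k))]
      exact h)
  refine ⟨hb.1, fun φ => ?_⟩
  have h0 : ∀ k, ∑ i, β i * (q i k : ℂ) = 0 := by
    intro k
    have := hb.2 (e k)
    simpa using this
  rw [hsw]
  refine Finset.sum_eq_zero fun k _ => ?_
  have h1 := congrArg φ (h0 k)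
  rw [map_sum, map_zero] at h1
  have h2 : ∀ i, φ (β i * (q i k : ℂ)) = φ (β i) * q i k := by
    intro i
    have : β i * (q i k : ℂ) = (q i k : ℚ) • β i := by rw [Rat.smul_def, mul_comm]
    rw [this, map_smul, smul_eq_mul, mul_comm]
  simp only [h2] at h1
  have h3 : ∑ i, (φ (β i) : ℂ) * (q i k : ℂ) = 0 := by exact_mod_cast h1
  rw [h3, zero_mul]

/-- clearing denominators -/
theorem toInt {r : ℕ} (u : Fin (r + 2) → ℝ) (hu : ∀ i, 0 < u i) (q : Fin (r + 2) → ℚ)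
    (hq : ∃ i, q i ≠ 0) (h0 : ∑ i, q i = 0) (h : ∑ i, (q i : ℝ) * Real.log (u i) = 0) :
    ∃ n : Fin (r + 2) → ℤ, n ≠ 0 ∧ ∑ i, n i = 0 ∧ ∏ i, u i ^ n i = 1 := by
  classical
  obtain ⟨D, hD⟩ : ∃ D : ℤ, D = ∏ i, ((q i).den : ℤ) := ⟨_, rfl⟩
  have hD0 : D ≠ 0 := by
    rw [hD]
    exact Finset.prod_ne_zero_iff.2 fun i _ => by exact_mod_cast (q i).den_nz
  have hn : ∀ i, ∃ n : ℤ, (n : ℚ) = D * q i := by
    intro i
    have : ((q i).den : ℤ) ∣ D := by rw [hD]; exact Finset.dvd_prod_of_mem _ (mem_univ i)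
    obtain ⟨m, hm⟩ := this
    refine ⟨m * (q i).num, ?_⟩
    rw [hm]
    push_cast
    have h2 : (q i) * (q i).den = (q i).num := Rat.mul_den_eq_num (q i)
    linear_combination (-(m : ℚ)) * h2
  choose n hn using hn
  have hDq : (D : ℚ) ≠ 0 := by exact_mod_cast hD0
  refine ⟨n, ?_, ?_, ?_⟩
  · rintro rfl
    obtain ⟨i, hi⟩ := hq
    have := hn i
    simp only [Pi.zero_apply, Int.cast_zero] at this
    rcases mul_eq_zero.1 this.symm with h1 | h1
    · exact hDq h1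
    · exact hi h1
  · have h1 : ((∑ i, n i : ℤ) : ℚ) = 0 := by
      push_cast
      simp only [hn, ← Finset.mul_sum, h0, mul_zero]
    exact_mod_cast h1
  · have hp : 0 < ∏ i, u i ^ n i := Finset.prod_pos fun i _ => zpow_pos (hu i) _
    apply Real.eq_one_of_pos_of_log_eq_zero hp
    rw [Real.log_prod (fun i _ => (zpow_pos (hu i) _).ne')]
    simp only [Real.log_zpow]
    have h1 : ∀ i, ((n i : ℤ) : ℝ) = D * (q i : ℝ) := by
      intro i
      exact_mod_cast congrArg (fun x : ℚ => (x : ℝ)) (hn i)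
    simp only [h1, mul_assoc, ← Finset.mul_sum, h, mul_zero]

theorem exp_log_alg {u : ℝ} (hu : 0 < u) (ha : IsAlgebraic ℚ u) :
    IsAlgebraic ℚ (Complex.exp ((Real.log u : ℝ) : ℂ)) := by
  rw [← Complex.ofReal_exp, Real.exp_log hu]
  exact toC ha

/-- no multiplicative relation with exponents of sum zero -/
def NoRel {r : ℕ} (u : Fin (r + 2) → ℝ) : Prop :=
  ¬ ∃ n : Fin (r + 2) → ℤ, n ≠ 0 ∧ ∑ i, n i = 0 ∧ ∏ i, u i ^ n i = 1

theorem indep {r : ℕ} (u : Fin (r + 2) → ℝ) (hu : ∀ i, 0 < u i) (ha : ∀ i, IsAlgebraic ℚ (u i))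
    (hno : NoRel u) (c₀ : ℂ) (hc₀ : IsAlgebraic ℚ c₀) (β : Fin (r + 2) → ℂ)
    (hβ : ∀ i, IsAlgebraic ℚ (β i)) (hs : ∑ i, β i = 0)
    (h : c₀ + ∑ i, β i * ((Real.log (u i) : ℝ) : ℂ) = 0) : c₀ = 0 ∧ ∀ i, β i = 0 := by
  obtain ⟨h1, h2⟩ := rel0 (fun i => ((Real.log (u i) : ℝ) : ℂ))
    (fun i => exp_log_alg (hu i) (ha i)) c₀ hc₀ β hβ h
  refine ⟨h1, fun i => ?_⟩
  by_contra hi
  apply hno
  have h3 : ∃ φ : Module.Dual ℚ ℂ, φ (β i) ≠ 0 := by
    by_contra hcon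
    push Not at hcon
    exact hi ((Module.forall_dual_apply_eq_zero_iff ℚ (β i)).1 hcon)
  obtain ⟨φ, hφ⟩ := h3
  refine toInt u hu (fun j => φ (β j)) ⟨i, hφ⟩ ?_ ?_
  · rw [← map_sum, hs, map_zero]
  · have := h2 φ
    exact_mod_cast this

theorem indepγ {r : ℕ} (u : Fin (r + 2) → ℝ) (hu : ∀ i, 0 < u i) (ha : ∀ i, IsAlgebraic ℚ (u i))
    (hno : NoRel u) (γ : ℂ) (hγ : IsAlgebraic ℚ γ) (hγ0 : γ ≠ 0) (β : Fin (r + 2) → ℂ)
    (hβ : ∀ i, IsAlgebraic ℚ (β i))
    (h : ∑ i, β i * (((Real.log (u i) : ℝ) : ℂ) + γ) = 0) : ∀ i, β i = 0 := by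
  have hsa : IsAlgebraic ℚ (∑ i, β i) := by
    rw [← mem_QB]
    exact sum_mem fun i _ => mem_QB.2 (hβ i)
  have h0 : γ * ∑ i, β i + ∑ i, β i * ((Real.log (u i) : ℝ) : ℂ) = 0 := by
    rw [← h, Finset.mul_sum, ← Finset.sum_add_distrib]
    exact Finset.sum_congr rfl fun i _ => by ring
  have h1 := (rel0 (fun i => ((Real.log (u i) : ℝ) : ℂ))
    (fun i => exp_log_alg (hu i) (ha i)) _ (hγ.mul hsa) β hβ h0).1
  have h2 : ∑ i, β i = 0 := (mul_eq_zero.1 h1).resolve_left hγ0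
  rw [h2, mul_zero] at h0
  exact (indep u hu ha hno 0 isAlgebraic_zero β hβ h2 h0).2

/-! ### the exceptional sets -/

theorem tr_pair {t : ℂ} (ht : Transcendental ℚ t) (a b : ℂ) (ha : IsAlgebraic ℚ a)
    (hb : IsAlgebraic ℚ b) (h : a * 1 + b * t = 0) : a = 0 ∧ b = 0 := by
  have hb0 : b = 0 := by
    by_contra hb0
    apply ht
    have : t = -a * b⁻¹ := by field_simp; linear_combination h
    rw [this]
    exact ha.neg.mul hb.inv
  exact ⟨by simpa [hb0] using h, hb0⟩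

theorem pi_tr : Transcendental ℚ ((Real.pi : ℝ) : ℂ) :=
  Pool.Agent.H340R2.LW.transcendental_pi_complex

theorem exp_tr {c : ℝ} (hc : IsAlgebraic ℚ c) (hc0 : c ≠ 0) :
    Transcendental ℚ ((Real.exp c : ℝ) : ℂ) := by
  rw [Complex.ofReal_exp]
  exact Pool.Agent.H340R2.LW.transcendental_cexp _ (toC hc) (by exact_mod_cast hc0)

/-- if `x ^ y` is algebraic, `y = w z` and `w` is algebraic then `z log x` is a linear form in
logarithms -/
theorem pow_mem {x y w z : ℝ} (hx : 0 < x) (h : IsAlgebraic ℚ (x ^ y)) (hw : IsAlgebraic ℚ w)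
    (hw0 : w ≠ 0) (hy : y = w * z) : (z : ℂ) * ((Real.log x : ℝ) : ℂ) ∈ LB := by
  rw [Real.rpow_def_of_pos hx] at h
  have h1 := LB_mul (toC hw.inv) (real_mem h)
  have h2 : ((w⁻¹ : ℝ) : ℂ) * ((Real.log x * y : ℝ) : ℂ) = (z : ℂ) * ((Real.log x : ℝ) : ℂ) := by
    rw [hy]
    have : (w : ℂ) ≠ 0 := by exact_mod_cast hw0
    push_cast
    field_simp
  rwa [h2] at h1

theorem log_mul_pi {u : ℝ} (hu : 0 < u) : Real.log (u * Real.pi) = Real.log u + Real.log Real.pi :=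
  Real.log_mul hu.ne' Real.pi_ne_zero

theorem log_mul_exp {v : ℝ} (hv : 0 < v) (c : ℝ) :
    Real.log (v * Real.exp c) = Real.log v + c := by
  rw [Real.log_mul hv.ne' (Real.exp_pos c).ne', Real.log_exp]

/-- the scalings for which `x ^ x` is algebraic -/
def U₁ : Set ℝ :=
  {u | 0 < u ∧ IsAlgebraic ℚ u ∧ IsAlgebraic ℚ ((u * Real.pi) ^ (u * Real.pi))}

/-- the scalings for which `x ^ y` is algebraic -/
def U₂ (c : ℝ) : Set ℝ :=
  {u | 0 < u ∧ IsAlgebraic ℚ u ∧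
    ∃ v : ℝ, 0 < v ∧ IsAlgebraic ℚ v ∧ IsAlgebraic ℚ ((u * Real.pi) ^ (v * Real.exp c))}

/-- the scalings for which `x ^ √2` is algebraic -/
def U₀ : Set ℝ := {u | 0 < u ∧ IsAlgebraic ℚ u ∧ IsAlgebraic ℚ ((u * Real.pi) ^ √2)}

/-- the scalings for which `y ^ y` is algebraic -/
def V₁ (c : ℝ) : Set ℝ :=
  {v | 0 < v ∧ IsAlgebraic ℚ v ∧ IsAlgebraic ℚ ((v * Real.exp c) ^ (v * Real.exp c))}

/-- the scalings for which `y ^ (x ^ 2)` is algebraic -/
def V₂ (c : ℝ) : Set ℝ :=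
  {v | 0 < v ∧ IsAlgebraic ℚ v ∧
    ∃ u : ℝ, 0 < u ∧ IsAlgebraic ℚ u ∧ IsAlgebraic ℚ ((v * Real.exp c) ^ ((u * Real.pi) ^ 2))}

theorem thin_U₁ : Thin 1 U₁ := by
  intro u hu
  by_contra hno
  have hp : ∀ i, 0 < u i := fun i => (hu i).1
  have ha : ∀ i, IsAlgebraic ℚ (u i) := fun i => (hu i).2.1
  have hm : ∀ i, ((Real.pi : ℝ) : ℂ) * ((Real.log (u i * Real.pi) : ℝ) : ℂ) ∈ LB := fun i =>
    pow_mem (mul_pos (hp i) Real.pi_pos) (hu i).2.2 (ha i) (hp i).ne' rfl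
  have hd : ∀ i, ((Real.pi : ℝ) : ℂ) *
      (((Real.log (u i) : ℝ) : ℂ) - ((Real.log (u 0) : ℝ) : ℂ)) ∈ Lt := by
    intro i
    have := LB.sub_mem (hm i) (hm 0)
    rw [log_mul_pi (hp i), log_mul_pi (hp 0)] at this
    apply LB_Lt
    convert this using 1
    push_cast
    ring
  have hl : ∀ i, ((Real.log (u i) : ℝ) : ℂ) ∈ Lt := fun i => Lt_log (exp_log_alg (hp i) (ha i))
  refine six' 1 (Real.pi : ℝ) 1 (((Real.log (u 1) : ℝ) : ℂ) - ((Real.log (u 0) : ℝ) : ℂ))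
    (((Real.log (u 2) : ℝ) : ℂ) - ((Real.log (u 0) : ℝ) : ℂ)) ?_ ?_ ?_ ?_ ?_ ?_ (hd 1) (hd 2)
  · intro a b h1 h2 h3
    exact tr_pair pi_tr a b h1 h2 h3
  · intro a b c h1 h2 h3 h4
    have := indep u hp ha hno a h1 ![-b - c, b, c] (by
      intro i
      fin_cases i
      · exact h2.neg.sub h3
      · exact h2
      · exact h3) (by
      simp [Fin.sum_univ_succ]) (by
      simp only [Fin.sum_univ_succ]
      simp
      linear_combination h4)
    exact ⟨this.1, this.2 1, this.2 2⟩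
  · rw [one_mul]; exact Lt_one
  · rw [one_mul]; exact Lt.sub_mem (hl 1) (hl 0)
  · rw [one_mul]; exact Lt.sub_mem (hl 2) (hl 0)
  · rw [mul_one]; exact LB_Lt pi_mem

theorem thin_U₂ {c : ℝ} (hc : IsAlgebraic ℚ c) (hc0 : c ≠ 0) : Thin 2 (U₂ c) := by
  intro u hu
  by_contra hno
  have hp : ∀ i, 0 < u i := fun i => (hu i).1
  have ha : ∀ i, IsAlgebraic ℚ (u i) := fun i => (hu i).2.1
  have hm : ∀ i, ((Real.exp c : ℝ) : ℂ) * ((Real.log (u i * Real.pi) : ℝ) : ℂ) ∈ LB := by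
    intro i
    obtain ⟨v, hv, hva, h⟩ := (hu i).2.2
    exact pow_mem (mul_pos (hp i) Real.pi_pos) h hva hv.ne' rfl
  have hd : ∀ i, ((Real.exp c : ℝ) : ℂ) *
      (((Real.log (u i) : ℝ) : ℂ) - ((Real.log (u 0) : ℝ) : ℂ)) ∈ Lt := by
    intro i
    have := LB.sub_mem (hm i) (hm 0)
    rw [log_mul_pi (hp i), log_mul_pi (hp 0)] at this
    apply LB_Lt
    convert this using 1
    push_cast
    ring
  have hl : ∀ i, ((Real.log (u i) : ℝ) : ℂ) ∈ Lt := fun i => Lt_log (exp_log_alg (hp i) (ha i))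
  refine six' 1 (Real.exp c : ℝ) (((Real.log (u 1) : ℝ) : ℂ) - ((Real.log (u 0) : ℝ) : ℂ))
    (((Real.log (u 2) : ℝ) : ℂ) - ((Real.log (u 0) : ℝ) : ℂ))
    (((Real.log (u 3) : ℝ) : ℂ) - ((Real.log (u 0) : ℝ) : ℂ)) ?_ ?_ ?_ ?_ ?_ (hd 1) (hd 2) (hd 3)
  · intro a b h1 h2 h3
    exact tr_pair (exp_tr hc hc0) a b h1 h2 h3
  · intro a b c h1 h2 h3 h4
    have := indep u hp ha hno 0 isAlgebraic_zero ![-a - b - c, a, b, c] (by
      intro i
      fin_cases i
      · exact (h1.neg.sub h2).sub h3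
      · exact h1
      · exact h2
      · exact h3) (by
      simp [Fin.sum_univ_succ]; ring) (by
      simp only [Fin.sum_univ_succ]
      simp
      linear_combination h4)
    exact ⟨this.2 1, this.2 2, this.2 3⟩
  · rw [one_mul]; exact Lt.sub_mem (hl 1) (hl 0)
  · rw [one_mul]; exact Lt.sub_mem (hl 2) (hl 0)
  · rw [one_mul]; exact Lt.sub_mem (hl 3) (hl 0)

/-- the common part of the proofs for `V₁` and `V₂` -/
theorem thin_aux {c : ℝ} (hc : IsAlgebraic ℚ c) (hc0 : c ≠ 0) {t : ℝ}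
    (ht : Transcendental ℚ (t : ℂ)) (v : Fin (1 + 2) → ℝ) (hp : ∀ i, 0 < v i)
    (ha : ∀ i, IsAlgebraic ℚ (v i))
    (hm : ∀ i, (t : ℂ) * ((Real.log (v i * Real.exp c) : ℝ) : ℂ) ∈ LB) : ¬ NoRel v := by
  intro hno
  have hd : ∀ i, (t : ℂ) * (((Real.log (v i) : ℝ) : ℂ) + (c : ℂ)) ∈ Lt := by
    intro i
    have := hm i
    rw [log_mul_exp (hp i)] at this
    apply LB_Lt
    convert this using 1
    push_cast
    ring
  have hl : ∀ i, ((Real.log (v i) : ℝ) : ℂ) + (c : ℂ) ∈ Lt := fun i =>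
    Lt.add_mem (Lt_log (exp_log_alg (hp i) (ha i))) (Lt_alg (toC hc))
  refine six' 1 (t : ℂ) (((Real.log (v 0) : ℝ) : ℂ) + (c : ℂ)) (((Real.log (v 1) : ℝ) : ℂ) + (c : ℂ))
    (((Real.log (v 2) : ℝ) : ℂ) + (c : ℂ)) ?_ ?_ ?_ ?_ ?_ (hd 0) (hd 1) (hd 2)
  · intro a b h1 h2 h3
    exact tr_pair ht a b h1 h2 h3
  · intro a b d h1 h2 h3 h4
    have := indepγ v hp ha hno (c : ℂ) (toC hc) (by exact_mod_cast hc0) ![a, b, d] (by
      intro i
      fin_cases i
      · exact h1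
      · exact h2
      · exact h3) (by
      simp only [Fin.sum_univ_succ]
      simp
      linear_combination h4)
    exact ⟨this 0, this 1, this 2⟩
  · rw [one_mul]; exact hl 0
  · rw [one_mul]; exact hl 1
  · rw [one_mul]; exact hl 2

theorem thin_V₁ {c : ℝ} (hc : IsAlgebraic ℚ c) (hc0 : c ≠ 0) : Thin 1 (V₁ c) := by
  intro v hv
  by_contra hno
  exact thin_aux hc hc0 (exp_tr hc hc0) v (fun i => (hv i).1) (fun i => (hv i).2.1) (fun i =>
    pow_mem (mul_pos (hv i).1 (Real.exp_pos c)) (hv i).2.2 (hv i).2.1 (hv i).1.ne' rfl) hno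

theorem thin_V₂ {c : ℝ} (hc : IsAlgebraic ℚ c) (hc0 : c ≠ 0) : Thin 1 (V₂ c) := by
  intro v hv
  by_contra hno
  refine thin_aux (t := Real.pi ^ 2) hc hc0 ?_ v (fun i => (hv i).1) (fun i => (hv i).2.1)
    (fun i => ?_) hno
  · intro h
    push_cast at h
    exact pi_tr (h.of_pow two_pos)
  · obtain ⟨u, hu, hua, h⟩ := (hv i).2.2
    exact pow_mem (mul_pos (hv i).1 (Real.exp_pos c)) h (hua.pow 2) (pow_pos hu 2).ne'
      (mul_pow _ _ _)

theorem sub_U₀ {u u' : ℝ} (h : u ∈ U₀) (h' : u' ∈ U₀) : u = u' := by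
  obtain ⟨hu, hua, h1⟩ := h
  obtain ⟨hu', hua', h2⟩ := h'
  have hr : 0 < u / u' := div_pos hu hu'
  have hra : IsAlgebraic ℚ (u / u') := hua.mul hua'.inv
  have h3 : IsAlgebraic ℚ ((u / u') ^ √2) := by
    have := h1.mul h2.inv
    have h4 : (u * Real.pi) ^ √2 * ((u' * Real.pi) ^ √2)⁻¹ = (u / u') ^ √2 := by
      rw [← div_eq_mul_inv, ← Real.div_rpow (by positivity) (by positivity)]
      congr 1
      field_simp
    rwa [h4] at this
  rw [Real.rpow_def_of_pos hr] at h3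
  obtain ⟨l, hl⟩ : ∃ l, l = Real.log (u / u') := ⟨_, rfl⟩
  have halg : ∀ i : Fin 2, IsAlgebraic ℚ (Complex.exp (![(l : ℂ), ((l * √2 : ℝ) : ℂ)] i)) := by
    intro i
    fin_cases i
    · rw [hl]; exact exp_log_alg hr hra
    · simp only [Matrix.cons_val_one, Matrix.cons_val_fin_one, Fin.mk_one]
      rw [← Complex.ofReal_exp, hl]
      exact toC h3
  have h2a : IsAlgebraic ℚ (√2 : ℝ) := by
    refine IsAlgebraic.of_pow two_pos ?_
    rw [Real.sq_sqrt (by norm_num)]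
    exact_mod_cast isAlgebraic_algebraMap (R := ℚ) (A := ℝ) (2 : ℚ)
  have h5 := (rel0 _ halg 0 isAlgebraic_zero ![((√2 : ℝ) : ℂ), -1] (by
    intro i
    fin_cases i
    · exact toC h2a
    · exact isAlgebraic_one.neg) (by
    rw [Fin.sum_univ_two]
    simp
    ring)).2
  have h6 : ∃ φ : Module.Dual ℚ ℂ, φ 1 ≠ 0 := by
    by_contra hcon
    push Not at hcon
    exact one_ne_zero ((Module.forall_dual_apply_eq_zero_iff ℚ (1 : ℂ)).1 hcon)
  obtain ⟨φ, hφ⟩ := h6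
  have h7 := h5 φ
  rw [Fin.sum_univ_two] at h7
  simp only [Matrix.cons_val_zero, Matrix.cons_val_one, Matrix.cons_val_fin_one, map_neg] at h7
  have h8 : ((φ ((√2 : ℝ) : ℂ) : ℚ) : ℝ) * l - (φ 1 : ℚ) * (l * √2) = 0 := by
    have h9 : ((((φ ((√2 : ℝ) : ℂ) : ℚ) : ℝ) * l - (φ 1 : ℚ) * (l * √2) : ℝ) : ℂ) = 0 := by
      push_cast
      push_cast at h7
      linear_combination h7
    exact_mod_cast h9
  have hl0 : l = 0 := by
    by_contra hl0
    have h9 : √2 = ((φ ((√2 : ℝ) : ℂ) / φ 1 : ℚ) : ℝ) := by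
      have h10 : ((φ 1 : ℚ) : ℝ) ≠ 0 := by exact_mod_cast hφ
      push_cast
      rw [eq_div_iff h10]
      have : l * (((φ ((√2 : ℝ) : ℂ) : ℚ) : ℝ) - (φ 1 : ℚ) * √2) = 0 := by linear_combination h8
      have := (mul_eq_zero.1 this).resolve_left hl0
      linear_combination -this
    exact irrational_sqrt_two ⟨_, h9.symm⟩
  rw [hl0] at hl
  have := Real.eq_one_of_pos_of_log_eq_zero hr hl.symm
  rwa [div_eq_one_iff_eq hu'.ne'] at this

/-! ### thin sets of integers -/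

theorem val_rel (p : ℕ) [hp : Fact p.Prime] {m : ℕ} (f : Fin m → ℕ) (hf : ∀ i, 0 < f i)
    (n : Fin m → ℤ) (h : ∏ i, ((f i : ℕ) : ℝ) ^ n i = 1) :
    ∑ i, n i * (padicValNat p (f i) : ℤ) = 0 := by
  have h1 : ∏ i, ((f i : ℕ) : ℚ) ^ n i = 1 := by
    apply Rat.cast_injective (α := ℝ)
    push_cast
    exact h
  have h2 : ∀ s : Finset (Fin m), padicValRat p (∏ i ∈ s, ((f i : ℕ) : ℚ) ^ n i) =
      ∑ i ∈ s, n i * (padicValNat p (f i) : ℤ) := by
    classical
    intro s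
    induction s using Finset.induction_on with
    | empty => simp
    | insert i s hi ih =>
      have hne : ∀ j, ((f j : ℕ) : ℚ) ^ n j ≠ 0 := fun j =>
        zpow_ne_zero _ (by exact_mod_cast (hf j).ne')
      rw [Finset.prod_insert hi, Finset.sum_insert hi,
        padicValRat.mul (hne i) (Finset.prod_ne_zero_iff.2 fun j _ => hne j), ih,
        padicValRat.zpow, padicValRat.of_nat]
  have h3 := h2 univ
  rw [h1, padicValRat.one] at h3
  exact h3.symm

theorem Thin.mono {r : ℕ} {S T : Set ℝ} (hS : Thin r S) (h : T ⊆ S) : Thin r T :=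
  fun u hu => hS u fun i => h (hu i)

theorem thin_card (r : ℕ) : ∀ (A : Finset ℕ) (N : ℕ), (∀ a ∈ A, 1 ≤ a ∧ a ≤ N) →
    (∀ S : Set ℝ, Thin r S → (∀ a ∈ A, (a : ℝ) ∈ S) → A.card ≤ (Nat.log 2 N + 1) ^ r) := by
  classical
  induction r with
  | zero =>
    intro A N hA S hS hAS
    rw [pow_zero, Finset.card_le_one]
    intro a ha b hb
    obtain ⟨n, hn0, hn1, hn2⟩ := hS ![(a : ℝ), (b : ℝ)] (by
      intro i
      fin_cases i
      · exact hAS a ha
      · exact hAS b hb)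
    have ha0 : (0 : ℝ) < a := by exact_mod_cast (hA a ha).1
    have hb0 : (0 : ℝ) < b := by exact_mod_cast (hA b hb).1
    have hn1 : n 0 + n 1 = 0 := (Fin.sum_univ_two n).symm.trans hn1
    have hn2 : (a : ℝ) ^ n 0 * (b : ℝ) ^ n 1 = 1 :=
      (Fin.prod_univ_two (fun i => ![(a : ℝ), (b : ℝ)] i ^ n i)).symm.trans hn2
    have h1 := congrArg Real.log hn2
    rw [Real.log_mul (zpow_pos ha0 _).ne' (zpow_pos hb0 _).ne', Real.log_zpow, Real.log_zpow,
      Real.log_one] at h1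
    have h2 : n 1 = -n 0 := by omega
    have h3 : n 0 ≠ 0 := by
      intro h
      apply hn0
      funext i
      fin_cases i
      · exact h
      · simp only [Fin.mk_one, Pi.zero_apply]
        rw [h2, h, neg_zero]
    rw [h2] at h1
    push_cast at h1
    have h4 : (n 0 : ℝ) * (Real.log a - Real.log b) = 0 := by linear_combination h1
    have h5 : (n 0 : ℝ) ≠ 0 := by exact_mod_cast h3
    have h6 := (mul_eq_zero.1 h4).resolve_left h5
    have h7 := Real.log_injOn_pos (Set.mem_Ioi.2 ha0) (Set.mem_Ioi.2 hb0) (by linarith)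
    exact_mod_cast h7
  | succ r ih =>
    intro A N hA S hS hAS
    by_cases h1 : A.card ≤ 1
    · exact h1.trans (Nat.one_le_pow _ _ (by omega))
    · push Not at h1
      obtain ⟨a, ha, b, hb, hab⟩ := Finset.one_lt_card.1 h1
      obtain ⟨p, hp, hpab⟩ : ∃ p : ℕ, p.Prime ∧ padicValNat p a ≠ padicValNat p b := by
        by_contra hcon
        push Not at hcon
        apply hab
        have ha0 : a ≠ 0 := by have := (hA a ha).1; omega
        have hb0 : b ≠ 0 := by have := (hA b hb).1; omega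
        refine Nat.eq_of_factorization_eq ha0 hb0 fun p => ?_
        by_cases hp : p.Prime
        · rw [Nat.factorization_def _ hp, Nat.factorization_def _ hp]
          exact hcon p hp
        · rw [Nat.factorization_eq_zero_of_not_prime _ hp,
            Nat.factorization_eq_zero_of_not_prime _ hp]
      have : Fact p.Prime := ⟨hp⟩
      have hmaps : ∀ x ∈ A, padicValNat p x ∈ range (Nat.log 2 N + 1) := by
        intro x hx
        rw [mem_range, Nat.lt_succ_iff]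
        exact (padicValNat_le_nat_log x).trans ((Nat.log_anti_left one_lt_two hp.two_le).trans
          (Nat.log_mono_right (hA x hx).2))
      rw [Finset.card_eq_sum_card_fiberwise hmaps, pow_succ']
      calc ∑ k ∈ range (Nat.log 2 N + 1), (A.filter fun x => padicValNat p x = k).card
          ≤ ∑ _k ∈ range (Nat.log 2 N + 1), (Nat.log 2 N + 1) ^ r := by
            refine Finset.sum_le_sum fun k _ => ?_
            refine ih (A.filter fun x => padicValNat p x = k) N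
              (fun x hx => hA x (Finset.mem_filter.1 hx).1)
              {y | ∃ x ∈ A.filter (fun x => padicValNat p x = k), (x : ℝ) = y} ?_
              (fun x hx => ⟨x, hx, rfl⟩)
            intro u hu
            choose f hf hfu using hu
            obtain ⟨w, hw, hwk⟩ : ∃ w ∈ A, padicValNat p w ≠ k := by
              by_cases hk : padicValNat p a = k
              · exact ⟨b, hb, fun h => hpab (hk.trans h.symm)⟩
              · exact ⟨a, ha, hk⟩
            have hg : ∀ i, Fin.cons (α := fun _ => ℕ) w f i ∈ A := by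
              intro i
              refine Fin.cases ?_ (fun j => ?_) i
              · exact hw
              · rw [Fin.cons_succ]
                exact (Finset.mem_filter.1 (hf j)).1
            obtain ⟨n, hn0, hn1, hn2⟩ := hS
              (fun i => ((Fin.cons (α := fun _ => ℕ) w f i : ℕ) : ℝ)) (fun i => hAS _ (hg i))
            have h3 := val_rel p (fun i => Fin.cons (α := fun _ => ℕ) w f i)
              (fun i => (hA _ (hg i)).1) n hn2
            rw [Fin.sum_univ_succ] at h3 hn1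
            rw [Fin.prod_univ_succ] at hn2
            simp only [Fin.cons_zero, Fin.cons_succ] at h3 hn2
            have h4 : ∀ i, padicValNat p (f i) = k := fun i => (Finset.mem_filter.1 (hf i)).2
            simp only [h4, ← Finset.sum_mul] at h3
            have h5 : n 0 * ((padicValNat p w : ℤ) - k) = 0 := by
              linear_combination h3 - (k : ℤ) * hn1
            have h6 : n 0 = 0 := by
              rcases mul_eq_zero.1 h5 with h | h
              · exact h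
              · exact absurd (by exact_mod_cast sub_eq_zero.1 h) hwk
            refine ⟨fun i => n i.succ, ?_, ?_, ?_⟩
            · intro h
              apply hn0
              funext i
              refine Fin.cases ?_ (fun j => ?_) i
              · exact h6
              · exact congrFun h j
            · rw [h6, zero_add] at hn1
              exact hn1
            · rw [h6, zpow_zero, one_mul] at hn2
              simp only [← hfu]
              exact hn2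
        _ = (Nat.log 2 N + 1) * (Nat.log 2 N + 1) ^ r := by
            rw [Finset.sum_const, card_range, smul_eq_mul]

theorem thin_primes (r : ℕ) (A : Finset ℕ) (hA : ∀ a ∈ A, a.Prime) (S : Set ℝ) (hS : Thin r S)
    (hAS : ∀ a ∈ A, (a : ℝ) ∈ S) : A.card ≤ r + 1 := by
  classical
  by_contra hcon
  push Not at hcon
  obtain ⟨B, hBA, hB⟩ := Finset.exists_subset_card_eq (show r + 2 ≤ A.card by omega)
  let e := (Finset.equivFinOfCardEq hB).symm
  have he : ∀ i, (e i : ℕ) ∈ A := fun i => hBA (e i).2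
  obtain ⟨n, hn0, hn1, hn2⟩ := hS (fun i => ((e i : ℕ) : ℝ)) (fun i => hAS _ (he i))
  apply hn0
  funext j
  have : Fact (e j : ℕ).Prime := ⟨hA _ (he j)⟩
  have h1 := val_rel (e j : ℕ) (fun i => (e i : ℕ)) (fun i => (hA _ (he i)).pos) n hn2
  rw [Finset.sum_eq_single j] at h1
  · rw [padicValNat_self] at h1
    simpa using h1
  · intro i _ hij
    have : Fact (e i : ℕ).Prime := ⟨hA _ (he i)⟩
    rw [padicValNat_primes]
    · simp
    · intro h
      exact hij (e.injective (Subtype.ext h)).symm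
  · intro h
    exact absurd (mem_univ j) h

theorem prime_fin (r : ℕ) (S : Set ℝ) (hS : Thin r S) :
    ∃ P : Finset ℕ, P.card ≤ r + 1 ∧ ∀ p : ℕ, p.Prime → (p : ℝ) ∈ S → p ∈ P := by
  classical
  by_cases hX : {p : ℕ | p.Prime ∧ (p : ℝ) ∈ S}.Finite
  · refine ⟨hX.toFinset, thin_primes r _ (fun a ha => ?_) S hS (fun a ha => ?_), fun p hp h => ?_⟩
    · exact ((Set.Finite.mem_toFinset hX).1 ha).1
    · exact ((Set.Finite.mem_toFinset hX).1 ha).2
    · exact (Set.Finite.mem_toFinset hX).2 ⟨hp, h⟩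
  · exfalso
    obtain ⟨B, hB, hBc⟩ := Set.Infinite.exists_subset_card_eq hX (r + 2)
    have := thin_primes r B (fun a ha => (hB ha).1) S hS (fun a ha => (hB ha).2)
    omega

/-! ### sums, products and quotients -/

theorem piR_tr : Transcendental ℚ Real.pi := Pool.Agent.H340R2.LW.transcendental_pi

/-- `c` belongs to the exceptional exponents -/
def Bad (c : ℝ) : Prop :=
  IsAlgebraic ℚ (Real.pi + Real.exp c) ∨ IsAlgebraic ℚ (Real.pi - Real.exp c) ∨
    IsAlgebraic ℚ (Real.pi * Real.exp c) ∨ IsAlgebraic ℚ (Real.pi / Real.exp c)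

theorem exp_diff {c d : ℝ} (hc : IsAlgebraic ℚ c) (hd : IsAlgebraic ℚ d)
    (h : IsAlgebraic ℚ (Real.exp c / Real.exp d)) : c = d := by
  by_contra hne
  rw [← Real.exp_sub] at h
  exact exp_tr (hc.sub hd) (sub_ne_zero.2 hne) (toC h)

theorem exp_lin {c d : ℝ} (hc : IsAlgebraic ℚ c) (hd : IsAlgebraic ℚ d) (hc0 : c ≠ 0) (hd0 : d ≠ 0)
    (h : IsAlgebraic ℚ (Real.exp c - Real.exp d)) : c = d := by
  by_contra hne
  have := Pool.Agent.H340R2.LW.exp_linearIndependent_aux (c : ℂ) (d : ℂ)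
    (-((Real.exp c - Real.exp d : ℝ) : ℂ)) 1 (-1) (toC hc) (toC hd) (by exact_mod_cast hc0)
    (by exact_mod_cast hd0) (by exact_mod_cast hne) (toC h).neg isAlgebraic_one isAlgebraic_one.neg
    (by push_cast; ring)
  exact one_ne_zero this.2.1

theorem exists_C : ∃ C : Finset ℝ, C.card ≤ 4 ∧
    ∀ c : ℝ, IsAlgebraic ℚ c → c ≠ 0 → Bad c → c ∈ C := by
  classical
  have one : ∀ P : ℝ → Prop, (∀ c d, P c → P d → c = d) → ∃ c₀ : ℝ, ∀ c, P c → c = c₀ := by
    intro P hP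
    by_cases h : ∃ c, P c
    · obtain ⟨c₀, h0⟩ := h
      exact ⟨c₀, fun c hc => hP c c₀ hc h0⟩
    · exact ⟨0, fun c hc => absurd ⟨c, hc⟩ h⟩
  obtain ⟨c₁, h1⟩ := one (fun c => IsAlgebraic ℚ c ∧ c ≠ 0 ∧ IsAlgebraic ℚ (Real.pi + Real.exp c))
    (fun c d hc hd => exp_lin hc.1 hd.1 hc.2.1 hd.2.1 (by
      have := hc.2.2.sub hd.2.2
      rwa [add_sub_add_left_eq_sub] at this))
  obtain ⟨c₂, h2⟩ := one (fun c => IsAlgebraic ℚ c ∧ c ≠ 0 ∧ IsAlgebraic ℚ (Real.pi - Real.exp c))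
    (fun c d hc hd => exp_lin hc.1 hd.1 hc.2.1 hd.2.1 (by
      have := hd.2.2.sub hc.2.2
      rwa [sub_sub_sub_cancel_left] at this))
  obtain ⟨c₃, h3⟩ := one (fun c => IsAlgebraic ℚ c ∧ c ≠ 0 ∧ IsAlgebraic ℚ (Real.pi * Real.exp c))
    (fun c d hc hd => exp_diff hc.1 hd.1 (by
      have := hc.2.2.mul hd.2.2.inv
      have h : Real.pi * Real.exp c * (Real.pi * Real.exp d)⁻¹ = Real.exp c / Real.exp d := by
        have := Real.pi_ne_zero
        field_simp
      rwa [h] at this))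
  obtain ⟨c₄, h4⟩ := one (fun c => IsAlgebraic ℚ c ∧ c ≠ 0 ∧ IsAlgebraic ℚ (Real.pi / Real.exp c))
    (fun c d hc hd => exp_diff hc.1 hd.1 (by
      have := hd.2.2.mul hc.2.2.inv
      have h : Real.pi / Real.exp d * (Real.pi / Real.exp c)⁻¹ = Real.exp c / Real.exp d := by
        have := Real.pi_ne_zero
        field_simp
      rwa [h] at this))
  refine ⟨{c₁, c₂, c₃, c₄}, Finset.card_le_four, fun c hc hc0 h => ?_⟩
  simp only [Finset.mem_insert, Finset.mem_singleton]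
  rcases h with h | h | h | h
  · exact Or.inl (h1 c ⟨hc, hc0, h⟩)
  · exact Or.inr (Or.inl (h2 c ⟨hc, hc0, h⟩))
  · exact Or.inr (Or.inr (Or.inl (h3 c ⟨hc, hc0, h⟩)))
  · exact Or.inr (Or.inr (Or.inr (h4 c ⟨hc, hc0, h⟩)))

/-- the ratio is determined -/
theorem ratio {u v u' v' e : ℝ} (hu : IsAlgebraic ℚ u) (hv : IsAlgebraic ℚ v)
    (hu' : IsAlgebraic ℚ u') (hv' : IsAlgebraic ℚ v') (hv0 : 0 < v) (hv0' : 0 < v')
    (h : IsAlgebraic ℚ (u * Real.pi + v * e)) (h' : IsAlgebraic ℚ (u' * Real.pi + v' * e)) :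
    u / v = u' / v' := by
  by_contra hne
  have hd : u * v' - u' * v ≠ 0 := by
    intro h0
    apply hne
    rw [div_eq_div_iff hv0.ne' hv0'.ne']
    linarith
  apply piR_tr
  have h1 : Real.pi = (v' * (u * Real.pi + v * e) - v * (u' * Real.pi + v' * e)) *
      (u * v' - u' * v)⁻¹ := by
    rw [eq_mul_inv_iff_mul_eq₀ hd]
    ring
  rw [h1]
  exact ((hv'.mul h).sub (hv.mul h')).mul ((hu.mul hv').sub (hu'.mul hv)).inv

/-- The main property: at least eight of the nine numbers formed with `x = u π` and `y = v e ^ c`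
are transcendental, and all nine if `c` is not in `C`. -/
def Good (C : Finset ℝ) (c u v : ℝ) : Prop :=
  8 ≤ {i | Transcendental ℚ (nine (u * Real.pi) (v * Real.exp c) i)}.ncard ∧
    (c ∉ C → ∀ i, Transcendental ℚ (nine (u * Real.pi) (v * Real.exp c) i))

theorem good {C : Finset ℝ} (hC : ∀ c : ℝ, IsAlgebraic ℚ c → c ≠ 0 → Bad c → c ∈ C) {c u v : ℝ}
    (hc : IsAlgebraic ℚ c) (hc0 : c ≠ 0) (hu : 0 < u) (hv : 0 < v) (hua : IsAlgebraic ℚ u)
    (hva : IsAlgebraic ℚ v) (h0 : u ∉ U₀) (h1 : u ∉ U₁) (h2 : u ∉ U₂ c) (h3 : v ∉ V₁ c)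
    (h4 : v ∉ V₂ c) (h5 : ¬ IsAlgebraic ℚ (u * Real.pi + v * Real.exp c))
    (h6 : ¬ IsAlgebraic ℚ (u * Real.pi - v * Real.exp c)) : Good C c u v := by
  have key : ∀ i : Fin 9, i ≠ 2 → i ≠ 3 →
      Transcendental ℚ (nine (u * Real.pi) (v * Real.exp c) i) := by
    intro i h2' h3'
    fin_cases i
    · exact h5
    · exact h6
    · exact absurd rfl h2'
    · exact absurd rfl h3'
    · exact fun h => h1 ⟨hu, hua, h⟩
    · exact fun h => h3 ⟨hv, hva, h⟩
    · exact fun h => h2 ⟨hu, hua, v, hv, hva, h⟩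
    · exact fun h => h0 ⟨hu, hua, h⟩
    · exact fun h => h4 ⟨hv, hva, u, hu, hua, h⟩
  have hmul : IsAlgebraic ℚ (nine (u * Real.pi) (v * Real.exp c) 2) →
      IsAlgebraic ℚ (Real.pi * Real.exp c) := by
    intro h
    have h' : IsAlgebraic ℚ (u * Real.pi * (v * Real.exp c)) := h
    have h7 := h'.mul (hua.mul hva).inv
    have h8 : u * Real.pi * (v * Real.exp c) * (u * v)⁻¹ = Real.pi * Real.exp c := by
      have := hu.ne'
      have := hv.ne'
      field_simp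
    rwa [h8] at h7
  have hdiv : IsAlgebraic ℚ (nine (u * Real.pi) (v * Real.exp c) 3) →
      IsAlgebraic ℚ (Real.pi / Real.exp c) := by
    intro h
    have h' : IsAlgebraic ℚ (u * Real.pi / (v * Real.exp c)) := h
    have h7 := h'.mul (hva.mul hua.inv)
    have h8 : u * Real.pi / (v * Real.exp c) * (v * u⁻¹) = Real.pi / Real.exp c := by
      have := hu.ne'
      have := hv.ne'
      field_simp
    rwa [h8] at h7
  constructor
  · obtain ⟨j, hj⟩ : ∃ j : Fin 9, ∀ i, i ≠ j →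
        Transcendental ℚ (nine (u * Real.pi) (v * Real.exp c) i) := by
      by_cases h : IsAlgebraic ℚ (Real.pi * Real.exp c)
      · refine ⟨2, fun i hi => ?_⟩
        by_cases hi3 : i = 3
        · subst hi3
          intro h'
          have h7 := h.mul (hdiv h')
          have h8 : Real.pi * Real.exp c * (Real.pi / Real.exp c) = Real.pi ^ 2 := by
            field_simp
          rw [h8] at h7
          exact piR_tr (h7.of_pow two_pos)
        · exact key i hi hi3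
      · refine ⟨3, fun i hi => ?_⟩
        by_cases hi2 : i = 2
        · subst hi2
          exact fun h' => h (hmul h')
        · exact key i hi2 hi
    have h7 : (Set.univ \ {j} : Set (Fin 9)).ncard = 8 := by
      rw [Set.ncard_sdiff_singleton_of_mem (Set.mem_univ j), Set.ncard_univ, Nat.card_eq_fintype_card,
        Fintype.card_fin]
    rw [← h7]
    refine Set.ncard_le_ncard (fun i hi => ?_) (Set.toFinite _)
    exact hj i hi.2
  · intro hcC i
    by_cases hi2 : i = 2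
    · subst hi2
      exact fun h => hcC (hC c hc hc0 (Or.inr (Or.inr (Or.inl (hmul h)))))
    · by_cases hi3 : i = 3
      · subst hi3
        exact fun h => hcC (hC c hc hc0 (Or.inr (Or.inr (Or.inr (hdiv h)))))
      · exact key i hi2 hi3

theorem nat_alg (n : ℕ) : IsAlgebraic ℚ (n : ℝ) := by
  have := isAlgebraic_algebraMap (R := ℚ) (A := ℝ) (n : ℚ)
  simpa using this

/-- at most one pair of different primes -/
theorem one_pair {e : ℝ} : ∃ R : Finset (ℕ × ℕ), R.card ≤ 1 ∧ ∀ p q : ℕ, p.Prime → q.Prime →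
    p ≠ q → IsAlgebraic ℚ ((p : ℝ) * Real.pi + q * e) → (p, q) ∈ R := by
  classical
  by_cases h : ∃ p q : ℕ, p.Prime ∧ q.Prime ∧ p ≠ q ∧ IsAlgebraic ℚ ((p : ℝ) * Real.pi + q * e)
  · obtain ⟨p, q, hp, hq, hpq, h⟩ := h
    refine ⟨{(p, q)}, (Finset.card_singleton _).le, fun p' q' hp' hq' hpq' h' => ?_⟩
    rw [Finset.mem_singleton]
    have h1 := ratio (nat_alg p) (nat_alg q) (nat_alg p') (nat_alg q')
      (by exact_mod_cast hq.pos) (by exact_mod_cast hq'.pos) h h'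
    rw [div_eq_div_iff (by exact_mod_cast hq.ne_zero) (by exact_mod_cast hq'.ne_zero)] at h1
    have h2 : p * q' = p' * q := by exact_mod_cast h1
    have h3 : p = p' := by
      have h4 : p ∣ p' * q := ⟨q', h2.symm⟩
      rcases hp.dvd_mul.1 h4 with h5 | h5
      · exact (Nat.prime_dvd_prime_iff_eq hp hp').1 h5
      · exact absurd ((Nat.prime_dvd_prime_iff_eq hp hq).1 h5) hpq
    subst h3
    have h5 : q' = q := Nat.eq_of_mul_eq_mul_left hp.pos h2
    rw [h5]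
  · refine ⟨∅, by simp, fun p q hp hq hpq h' => absurd ⟨p, q, hp, hq, hpq, h'⟩ h⟩

theorem result : ∃ (C : Finset ℝ) (u₀ : ℝ) (S₁ : Set ℝ), C.card ≤ 4 ∧ Thin 1 S₁ ∧
    ∀ c : ℝ, IsAlgebraic ℚ c → c ≠ 0 →
    -- (A) algebraic scalings
    (∃ (ρ₁ ρ₂ : ℝ) (S₂ T₁ T₂ : Set ℝ), Thin 2 S₂ ∧ Thin 1 T₁ ∧ Thin 1 T₂ ∧
      ∀ u v : ℝ, 0 < u → 0 < v → IsAlgebraic ℚ u → IsAlgebraic ℚ v →
        Good C c u v ∨ u = u₀ ∨ u ∈ S₁ ∨ u ∈ S₂ ∨ v ∈ T₁ ∨ v ∈ T₂ ∨ u / v = ρ₁ ∨ u / v = ρ₂) ∧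
    -- (B) prime scalings
    (∃ (P Q : Finset ℕ) (R : Finset (ℕ × ℕ)), P.card ≤ 6 ∧ Q.card ≤ 4 ∧ R.card ≤ 2 ∧
      ∀ p q : ℕ, p.Prime → q.Prime → p ∉ P → q ∉ Q → (p, q) ∉ R → (p ≠ q ∨ c ∉ C) →
        Good C c p q) ∧
    -- (C) scalings by positive integers up to `N`
    (∀ N : ℕ, {x : ℕ × ℕ | 1 ≤ x.1 ∧ x.1 ≤ N ∧ 1 ≤ x.2 ∧ x.2 ≤ N ∧ ¬ Good C c x.1 x.2}.ncard ≤
      N * (Nat.log 2 N + 3) ^ 2) := by
  classical
  obtain ⟨C, hC4, hC⟩ := exists_C
  obtain ⟨u₀, hu₀⟩ : ∃ u₀ : ℝ, ∀ u ∈ U₀, u = u₀ := by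
    by_cases h : U₀.Nonempty
    · obtain ⟨u₀, h⟩ := h
      exact ⟨u₀, fun u hu => sub_U₀ hu h⟩
    · exact ⟨0, fun u hu => absurd ⟨u, hu⟩ h⟩
  refine ⟨C, u₀, U₁, hC4, thin_U₁, fun c hc hc0 => ?_⟩
  have hr : ∀ e : ℝ, ∃ ρ : ℝ, ∀ u v : ℝ, 0 < v → IsAlgebraic ℚ u → IsAlgebraic ℚ v →
      IsAlgebraic ℚ (u * Real.pi + v * e) → u / v = ρ := by
    intro e
    by_cases h : ∃ u v : ℝ, 0 < v ∧ IsAlgebraic ℚ u ∧ IsAlgebraic ℚ v ∧
        IsAlgebraic ℚ (u * Real.pi + v * e)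
    · obtain ⟨u', v', h1, h2, h3, h4⟩ := h
      exact ⟨u' / v', fun u v hv hu hva h => ratio hu hva h2 h3 hv h1 h h4⟩
    · exact ⟨0, fun u v hv hu hva h' => absurd ⟨u, v, hv, hu, hva, h'⟩ h⟩
  obtain ⟨ρ₁, hρ₁⟩ := hr (Real.exp c)
  obtain ⟨ρ₂, hρ₂⟩ := hr (-Real.exp c)
  have hA : ∀ u v : ℝ, 0 < u → 0 < v → IsAlgebraic ℚ u → IsAlgebraic ℚ v →
      Good C c u v ∨ u = u₀ ∨ u ∈ U₁ ∨ u ∈ U₂ c ∨ v ∈ V₁ c ∨ v ∈ V₂ c ∨ u / v = ρ₁ ∨
        u / v = ρ₂ := by
    intro u v hu hv hua hva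
    by_contra hcon
    push Not at hcon
    obtain ⟨g, h0, h1, h2, h3, h4, h5, h6⟩ := hcon
    refine g (good hC hc hc0 hu hv hua hva (fun h => h0 (hu₀ u h)) h1 h2 h3 h4
      (fun h => h5 (hρ₁ u v hv hua hva h)) (fun h => h6 (hρ₂ u v hv hua hva ?_)))
    rwa [mul_neg, ← sub_eq_add_neg]
  refine ⟨⟨ρ₁, ρ₂, U₂ c, V₁ c, V₂ c, thin_U₂ hc hc0, thin_V₁ hc hc0, thin_V₂ hc hc0, hA⟩, ?_, ?_⟩
  · obtain ⟨P₁, hP₁, hP₁'⟩ := prime_fin 1 U₁ thin_U₁
    obtain ⟨P₂, hP₂, hP₂'⟩ := prime_fin 2 (U₂ c) (thin_U₂ hc hc0)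
    obtain ⟨Q₁, hQ₁, hQ₁'⟩ := prime_fin 1 (V₁ c) (thin_V₁ hc hc0)
    obtain ⟨Q₂, hQ₂, hQ₂'⟩ := prime_fin 1 (V₂ c) (thin_V₂ hc hc0)
    obtain ⟨R₁, hR₁, hR₁'⟩ := one_pair (e := Real.exp c)
    obtain ⟨R₂, hR₂, hR₂'⟩ := one_pair (e := -Real.exp c)
    obtain ⟨P₀, hP₀, hP₀'⟩ : ∃ P₀ : Finset ℕ, P₀.card ≤ 1 ∧ ∀ p : ℕ, (p : ℝ) ∈ U₀ → p ∈ P₀ := by
      by_cases h : ∃ p : ℕ, (p : ℝ) ∈ U₀
      · obtain ⟨p, h⟩ := h
        refine ⟨{p}, (Finset.card_singleton _).le, fun p' h' => ?_⟩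
        rw [Finset.mem_singleton]
        exact_mod_cast sub_U₀ h' h
      · exact ⟨∅, by simp, fun p hp => absurd ⟨p, hp⟩ h⟩
    refine ⟨P₀ ∪ (P₁ ∪ P₂), Q₁ ∪ Q₂, R₁ ∪ R₂, ?_, ?_, ?_, ?_⟩
    · have := Finset.card_union_le P₀ (P₁ ∪ P₂)
      have := Finset.card_union_le P₁ P₂
      omega
    · have := Finset.card_union_le Q₁ Q₂
      omega
    · have := Finset.card_union_le R₁ R₂
      omega
    · intro p q hp hq hpP hqQ hpqR hne
      simp only [Finset.mem_union, not_or] at hpP hqQ hpqR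
      refine good hC hc hc0 (by exact_mod_cast hp.pos) (by exact_mod_cast hq.pos) (nat_alg p)
        (nat_alg q) (fun h => hpP.1 (hP₀' p h)) (fun h => hpP.2.1 (hP₁' p hp h))
        (fun h => hpP.2.2 (hP₂' p hp h)) (fun h => hqQ.1 (hQ₁' q hq h))
        (fun h => hqQ.2 (hQ₂' q hq h)) (fun h => ?_) (fun h => ?_)
      · by_cases hpq : p = q
        · have hcC := hne.resolve_left (fun h => h hpq)
          apply hcC
          refine hC c hc hc0 (Or.inl ?_)
          rw [hpq, ← mul_add] at h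
          have h1 := h.mul (nat_alg q).inv
          have hq0 : (q : ℝ) ≠ 0 := by exact_mod_cast hq.ne_zero
          have h2 : (q : ℝ) * (Real.pi + Real.exp c) * (q : ℝ)⁻¹ = Real.pi + Real.exp c := by
            field_simp
          rwa [h2] at h1
        · exact hpqR.1 (hR₁' p q hp hq hpq h)
      · by_cases hpq : p = q
        · have hcC := hne.resolve_left (fun h => h hpq)
          apply hcC
          refine hC c hc hc0 (Or.inr (Or.inl ?_))
          rw [hpq, ← mul_sub] at h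
          have h1 := h.mul (nat_alg q).inv
          have hq0 : (q : ℝ) ≠ 0 := by exact_mod_cast hq.ne_zero
          have h2 : (q : ℝ) * (Real.pi - Real.exp c) * (q : ℝ)⁻¹ = Real.pi - Real.exp c := by
            field_simp
          rwa [h2] at h1
        · refine hpqR.2 (hR₂' p q hp hq hpq ?_)
          rwa [mul_neg, ← sub_eq_add_neg]
  · intro N
    obtain ⟨I, hI⟩ : ∃ I : Finset ℕ, I = Finset.Icc 1 N := ⟨_, rfl⟩
    have hIc : I.card = N := by rw [hI, Nat.card_Icc]; omega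
    have hIm : ∀ a ∈ I, 1 ≤ a ∧ a ≤ N := fun a ha => by rw [hI] at ha; exact Finset.mem_Icc.1 ha
    obtain ⟨ℓ, hℓ⟩ : ∃ ℓ, ℓ = Nat.log 2 N := ⟨_, rfl⟩
    have cardT : ∀ (r : ℕ) (S : Set ℝ), Thin r S →
        (I.filter fun a : ℕ => (a : ℝ) ∈ S).card ≤ (ℓ + 1) ^ r := by
      intro r S hS
      rw [hℓ]
      exact thin_card r _ N (fun a ha => hIm a (Finset.mem_filter.1 ha).1) S hS
        (fun a ha => (Finset.mem_filter.1 ha).2)
    let A₀ := I.filter fun a : ℕ => (a : ℝ) = u₀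
    let A₁ := I.filter fun a : ℕ => (a : ℝ) ∈ U₁
    let A₂ := I.filter fun a : ℕ => (a : ℝ) ∈ U₂ c
    let B₁ := I.filter fun a : ℕ => (a : ℝ) ∈ V₁ c
    let B₂ := I.filter fun a : ℕ => (a : ℝ) ∈ V₂ c
    let D : ℝ → Finset (ℕ × ℕ) := fun ρ => (I ×ˢ I).filter fun x => (x.1 : ℝ) / x.2 = ρ
    have hD : ∀ ρ, (D ρ).card ≤ N := by
      intro ρ
      rw [← hIc]
      refine Finset.card_le_card_of_injOn Prod.snd (fun x hx => ?_) (fun x hx y hy hxy => ?_)
      · exact (Finset.mem_product.1 (Finset.mem_filter.1 hx).1).2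
      · have hx' := Finset.mem_filter.1 hx
        have hy' := Finset.mem_filter.1 hy
        have h1 := (hIm _ (Finset.mem_product.1 hx'.1).2).1
        have h3 := hx'.2.trans hy'.2.symm
        have h2 : x.2 = y.2 := hxy
        rw [← h2, div_left_inj' (by exact_mod_cast (by omega : x.2 ≠ 0))] at h3
        exact Prod.ext (by exact_mod_cast h3) h2
    have hA₀ : A₀.card ≤ 1 := by
      rw [Finset.card_le_one]
      intro a ha b hb
      have h1 := (Finset.mem_filter.1 ha).2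
      have h2 := (Finset.mem_filter.1 hb).2
      exact_mod_cast h1.trans h2.symm
    have hA₁ : A₁.card ≤ ℓ + 1 := (cardT 1 _ thin_U₁).trans (pow_one _).le
    have hA₂ : A₂.card ≤ (ℓ + 1) ^ 2 := cardT 2 _ (thin_U₂ hc hc0)
    have hB₁ : B₁.card ≤ ℓ + 1 := (cardT 1 _ (thin_V₁ hc hc0)).trans (pow_one _).le
    have hB₂ : B₂.card ≤ ℓ + 1 := (cardT 1 _ (thin_V₂ hc hc0)).trans (pow_one _).le
    have hsub : {x : ℕ × ℕ | 1 ≤ x.1 ∧ x.1 ≤ N ∧ 1 ≤ x.2 ∧ x.2 ≤ N ∧ ¬ Good C c x.1 x.2} ⊆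
        (((((A₀ ∪ (A₁ ∪ A₂)) ×ˢ I) ∪ (I ×ˢ (B₁ ∪ B₂))) ∪ (D ρ₁ ∪ D ρ₂) : Finset (ℕ × ℕ)) :
          Set (ℕ × ℕ)) := by
      rintro ⟨a, b⟩ ⟨h1, h2, h3, h4, h5⟩
      simp only at h1 h2 h3 h4 h5
      have ha : a ∈ I := by rw [hI]; exact Finset.mem_Icc.2 ⟨h1, h2⟩
      have hb : b ∈ I := by rw [hI]; exact Finset.mem_Icc.2 ⟨h3, h4⟩
      have h6 := (hA a b (by exact_mod_cast h1) (by exact_mod_cast h3) (nat_alg a)
        (nat_alg b)).resolve_left h5
      simp only [Finset.coe_union, Set.mem_union, Finset.mem_coe, Finset.mem_product,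
        Finset.mem_union, A₀, A₁, A₂, B₁, B₂, D, Finset.mem_filter, ha, hb, true_and, and_true]
      tauto
    refine (Set.ncard_le_ncard hsub (Finset.finite_toSet _)).trans ?_
    rw [Set.ncard_coe_finset]
    refine (Finset.card_union_le _ _).trans ?_
    have e1 := Finset.card_union_le ((A₀ ∪ (A₁ ∪ A₂)) ×ˢ I) (I ×ˢ (B₁ ∪ B₂))
    rw [Finset.card_product, Finset.card_product, hIc] at e1
    have e2 : (A₀ ∪ (A₁ ∪ A₂)).card ≤ 1 + (ℓ + 1) + (ℓ + 1) ^ 2 := by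
      have := Finset.card_union_le A₀ (A₁ ∪ A₂)
      have := Finset.card_union_le A₁ A₂
      omega
    have e3 : (B₁ ∪ B₂).card ≤ 2 * (ℓ + 1) := by
      have := Finset.card_union_le B₁ B₂
      omega
    have e4 : (D ρ₁ ∪ D ρ₂).card ≤ 2 * N := by
      have := Finset.card_union_le (D ρ₁) (D ρ₂)
      have := hD ρ₁
      have := hD ρ₂
      omega
    rw [← hℓ]
    calc _ ≤ (1 + (ℓ + 1) + (ℓ + 1) ^ 2) * N + N * (2 * (ℓ + 1)) + 2 * N := by
          refine add_le_add (e1.trans (add_le_add ?_ ?_)) e4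
          · exact Nat.mul_le_mul_right _ e2
          · exact Nat.mul_le_mul_left _ e3
      _ = N * ((ℓ + 1) ^ 2 + 3 * (ℓ + 1) + 3) := by ring
      _ ≤ N * (ℓ + 3) ^ 2 := by
          refine Nat.mul_le_mul_left _ ?_
          nlinarith

end Pool.Agent.Results.MP_a2f59b_nt.AllNineAtOnce
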