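import Mathlib
import Pool.Agent.Q158.EqD.Mob
import Pool.Agent.Q158.EqD.TransGen

/-!
# The numbers `π + e, π - e, π e, π / e` at every finite scale

Let `D_N(y)` be the discrepancy of the numbers `y, 2 y, …, N y` modulo one; `y` is rational if and
only if `D_N(y)` does not tend to zero. Since `π` and `e` are transcendental,
at most one of the four numbers `π + e, π - e, π e, π / e` can be algebraic. We prove forms of
this which hold at EVERY finite scale `N`.

1. For two of the numbers `t + e, t - e, t e, t / e`, `t` in a compact set of positive numbers different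
   from `e`: `D_L(u) D_M(v) ≤ K N ^ (-1 / (2 + η))` (`3 + η` for the pairs `t ± e, t e`) for all `L, M ≥ N`.
2. For every `N` at least three of the numbers `x = π + e, π - e, π e, π / e` satisfy
   `D_M(x) ≤ K N ^ (-1 / (6 + η))` for ALL `M ≥ N`.
3. For every `d` there are `κ, K > 0` such that for every `N` three of the four numbers `x` look
   transcendental at the scale `N`: `D_M(P(x)) ≤ K N ^ (-κ)` for ALL `M ≥ N` and for all nonconstant
   `P ∈ ℤ[X]` of degree at most `d` with coefficients at most `N ^ κ`.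
4. For all `k` and `d` there are `κ, K > 0` such that for every `N` there is an irreducible polynomial
   `f_N ∈ ℤ[X, Y]` which contains both variables, such that all rational functions `u / v` of
   degree at most `k` in each variable, with integer coefficients at most `N ^ κ` (`v(e, π) ≠ 0`,
   `|u / v| ≤ N ^ κ` at the point) look transcendental at `(e, π)` at the scale `N`, unless `f_N` divides
   the numerator of `g(u / v)` for a nonconstant `g ∈ ℤ[X]`.
5. A number `y` is transcendental if and only if `D_N(P(y)) → 0` for all nonconstant `P ∈ ℤ[X]`.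

Proof. If `D_M(y) > δ` then `y` has a rational approximation with a denominator `≤ 12 / δ` and the
error at most `16 / (δ M)`. For 4 this gives an integer polynomial `q P(u / v) v ^ n - p v ^ n`
with a very small value at `(e, π)`, and so an irreducible factor with a very small value. By the
transcendence measures of `e` and `π` such a factor contains both variables, and two factors which
are not proportional have a resultant, a polynomial in one variable, which is too small at `e`.
For 3 let `y` be a root of `f_N(X, Y)` in an algebraic closure of `ℚ(X)`; if two of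
`y + X, y - X, X y, y / X` were algebraic numbers, then `X` or `y` would be one.
-/

set_option autoImplicit false

open Real Polynomial

namespace Pool.Agent.Results.MP_a2f59b_nt.AtEveryScale

noncomputable section

/-- The number of the `n`, `1 ≤ n ≤ N`, for which the fractional part of `n x` lies in `[a, b)`. -/
def count (x : ℝ) (N : ℕ) (a b : ℝ) : ℕ :=
  ((Finset.Icc 1 N).filter fun n : ℕ => a ≤ Int.fract (n * x) ∧ Int.fract (n * x) < b).card

/-- The discrepancy of `x, 2 x, …, N x` modulo one: the supremum over the intervals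
`[a, b) ⊆ [0, 1)` of the difference between the proportion of the `n ≤ N` with `n x` in `[a, b)`
modulo one and the length of the interval. -/
def discrepancy (x : ℝ) (N : ℕ) : ℝ :=
  sSup {d | ∃ a b : ℝ, 0 ≤ a ∧ a ≤ b ∧ b ≤ 1 ∧ d = |(count x N a b : ℝ) / N - (b - a)|}

/-- The four numbers `t + e`, `t - e`, `t e`, `t / e`. -/
def four (t : ℝ) : Fin 4 → ℝ := ![t + exp 1, t - exp 1, t * exp 1, t / exp 1]

theorem resultA :
    -- any two of the four numbers
    (∀ τ T η : ℝ, 0 < τ → 0 < η → ∃ K : ℝ, 0 < K ∧ ∀ t : ℝ, τ ≤ t → t ≤ T → τ ≤ |t - exp 1| →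
      ∀ N L M : ℕ, 0 < N → N ≤ L → N ≤ M →
        discrepancy (t + exp 1) L * discrepancy (t - exp 1) M ≤ K * (N : ℝ) ^ (-(1 / (2 + η))) ∧
        discrepancy (t + exp 1) L * discrepancy (t / exp 1) M ≤ K * (N : ℝ) ^ (-(1 / (2 + η))) ∧
        discrepancy (t - exp 1) L * discrepancy (t / exp 1) M ≤ K * (N : ℝ) ^ (-(1 / (2 + η))) ∧
        discrepancy (t * exp 1) L * discrepancy (t / exp 1) M ≤ K * (N : ℝ) ^ (-(1 / (2 + η))) ∧
        discrepancy (t + exp 1) L * discrepancy (t * exp 1) M ≤ K * (N : ℝ) ^ (-(1 / (3 + η))) ∧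
        discrepancy (t - exp 1) L * discrepancy (t * exp 1) M ≤ K * (N : ℝ) ^ (-(1 / (3 + η)))) ∧
    -- at every scale at least three of the four numbers formed with `π` are good from there on
    (∀ η : ℝ, 0 < η → ∃ K : ℝ, 0 < K ∧ ∀ N : ℕ, 0 < N → ∃ i₀ : Fin 4, ∀ i : Fin 4, i ≠ i₀ →
      ∀ M : ℕ, N ≤ M → discrepancy (four π i) M ≤ K * (N : ℝ) ^ (-(1 / (6 + η)))) ∧
    -- the discrepancy tends to zero exactly for the irrational numbers
    (∀ x : ℝ, Filter.Tendsto (fun N : ℕ => discrepancy x N) Filter.atTop (nhds 0) ↔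
      Irrational x) := by
  have he2 : (2.7 : ℝ) < exp 1 := by have := Real.exp_one_gt_d9; linarith
  have he3 : exp 1 < (2.72 : ℝ) := by have := Real.exp_one_lt_d9; linarith
  have he : 0 < exp 1 := exp_pos 1
  have h1 : ∀ τ T η : ℝ, 0 < τ → 0 < η → ∃ K : ℝ, 0 < K ∧ ∀ t : ℝ, τ ≤ t → t ≤ T →
      τ ≤ |t - exp 1| → ∀ N L M : ℕ, 0 < N → N ≤ L → N ≤ M →
        discrepancy (t + exp 1) L * discrepancy (t - exp 1) M ≤ K * (N : ℝ) ^ (-(1 / (2 + η))) ∧
        discrepancy (t + exp 1) L * discrepancy (t / exp 1) M ≤ K * (N : ℝ) ^ (-(1 / (2 + η))) ∧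
        discrepancy (t - exp 1) L * discrepancy (t / exp 1) M ≤ K * (N : ℝ) ^ (-(1 / (2 + η))) ∧
        discrepancy (t * exp 1) L * discrepancy (t / exp 1) M ≤ K * (N : ℝ) ^ (-(1 / (2 + η))) ∧
        discrepancy (t + exp 1) L * discrepancy (t * exp 1) M ≤ K * (N : ℝ) ^ (-(1 / (3 + η))) ∧
        discrepancy (t - exp 1) L * discrepancy (t * exp 1) M ≤ K * (N : ℝ) ^ (-(1 / (3 + η))) := by
    intro τ T η hτ hη
    set T' : ℝ := (|T| + 1) * (exp 1 + 1) with hT'
    have hT'0 : 0 ≤ T' := by positivity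
    set τ' : ℝ := min τ 1 with hτ'
    have hτ'0 : 0 < τ' := lt_min hτ one_pos
    have hτ'1 : τ' ≤ 1 := min_le_right _ _
    have hτ'2 : τ' ≤ τ := min_le_left _ _
    obtain ⟨K1, hK1, H1⟩ := Pool.Agent.Q158.EqD.lin_pow η hη
    obtain ⟨K2, hK2, H2⟩ := Pool.Agent.Q158.EqD.mob 1 one_pos 1 (by norm_num) T' τ' η hT'0 hτ'0
      hτ'1 hη
    obtain ⟨K3, hK3, H3⟩ := Pool.Agent.Q158.EqD.mob 1 one_pos (-1) (by norm_num) T' τ' η hT'0 hτ'0
      hτ'1 hη
    obtain ⟨K4, hK4, H4⟩ := Pool.Agent.Q158.EqD.mob 2 two_pos 0 (by norm_num) T' τ' η hT'0 hτ'0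
      hτ'1 hη
    obtain ⟨K5, hK5, H5⟩ := Pool.Agent.Q158.EqD.poly 2 (by norm_num) T' η hT'0 hη
    refine ⟨K1 + K2 + K3 + K4 + K5, by positivity, ?_⟩
    intro t ht0 htT hte N L M hN hL hM
    have ht : 0 < t := by linarith
    have htT' : t ≤ |T| := htT.trans (le_abs_self T)
    have hpow : ∀ κ : ℝ, 0 ≤ (N : ℝ) ^ κ := fun κ => Real.rpow_nonneg (by positivity) _
    have b1 : |t + exp 1| ≤ T' := by
      rw [abs_of_pos (by positivity), hT']; nlinarith
    have b2 : |t - exp 1| ≤ T' := by
      have := abs_sub t (exp 1)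
      rw [abs_of_pos ht, abs_of_pos he] at this
      rw [hT']; nlinarith
    have b3 : |t * exp 1| ≤ T' := by
      rw [abs_of_pos (by positivity), hT']; nlinarith
    have b4 : |t / exp 1| ≤ T' := by
      rw [abs_of_pos (by positivity)]
      have : t / exp 1 ≤ t := by
        rw [div_le_iff₀ he]; nlinarith
      rw [hT']; nlinarith
    have c1 : τ' ≤ |t + exp 1| := by
      rw [abs_of_pos (by positivity)]; linarith
    have c2 : τ' ≤ |t - exp 1| := hτ'2.trans hte
    have c3 : τ' ≤ |t * exp 1| := by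
      rw [abs_of_pos (by positivity)]; nlinarith
    have hle : ∀ X κ Ki : ℝ, X ≤ Ki * (N : ℝ) ^ κ → Ki ≤ K1 + K2 + K3 + K4 + K5 →
        X ≤ (K1 + K2 + K3 + K4 + K5) * (N : ℝ) ^ κ := by
      intro X κ Ki h hKi
      exact h.trans (mul_le_mul_of_nonneg_right hKi (hpow κ))
    refine ⟨?_, ?_, ?_, ?_, ?_, ?_⟩
    · exact hle _ _ _ (H1 t N L M hN hL hM) (by linarith)
    · refine hle _ _ _ (H2 (t + exp 1) (t / exp 1) b1 b4 c1 ?_ N L M hN hL hM) (by linarith)
      push_cast
      field_simp
    · refine hle _ _ _ (H3 (t - exp 1) (t / exp 1) b2 b4 c2 ?_ N L M hN hL hM) (by linarith)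
      push_cast
      field_simp
      ring
    · refine hle _ _ _ (H4 (t * exp 1) (t / exp 1) b3 b4 c3 ?_ N L M hN hL hM) (by linarith)
      have h2 : exp ((2 : ℕ) : ℝ) = exp 1 * exp 1 := by
        rw [← Real.exp_add]; norm_num
      rw [h2]
      push_cast
      field_simp
      ring
    · have h := H5 ![1, -1] ![t * exp 1, t + exp 1]
        (by intro j; fin_cases j <;> simp)
        (by
          intro j
          fin_cases j
          · exact b3
          · exact b1)
        (by
          rw [Fin.sum_univ_two]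
          show exp 1 ^ 2 + (((1 : ℤ) : ℝ) * (t * exp 1) * exp 1 ^ 0 +
            ((-1 : ℤ) : ℝ) * (t + exp 1) * exp 1 ^ 1) = 0
          push_cast
          ring)
        N ![M, L] hN (by intro j; fin_cases j <;> simp [hL, hM])
      rw [Fin.prod_univ_two] at h
      have h4 : discrepancy (t * exp 1) M * discrepancy (t + exp 1) L ≤
          K5 * (N : ℝ) ^ (-(1 / (((2 : ℕ) : ℝ) + 1 + η))) := h
      have e : ((2 : ℕ) : ℝ) + 1 + η = 3 + η := by norm_num
      rw [e, mul_comm] at h4
      exact hle _ _ _ h4 (by linarith)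
    · have h := H5 ![-1, 1] ![t * exp 1, t - exp 1]
        (by intro j; fin_cases j <;> simp)
        (by
          intro j
          fin_cases j
          · exact b3
          · exact b2)
        (by
          rw [Fin.sum_univ_two]
          show exp 1 ^ 2 + (((-1 : ℤ) : ℝ) * (t * exp 1) * exp 1 ^ 0 +
            ((1 : ℤ) : ℝ) * (t - exp 1) * exp 1 ^ 1) = 0
          push_cast
          ring)
        N ![M, L] hN (by intro j; fin_cases j <;> simp [hL, hM])
      rw [Fin.prod_univ_two] at h
      have h4 : discrepancy (t * exp 1) M * discrepancy (t - exp 1) L ≤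
          K5 * (N : ℝ) ^ (-(1 / (((2 : ℕ) : ℝ) + 1 + η))) := h
      have e : ((2 : ℕ) : ℝ) + 1 + η = 3 + η := by norm_num
      rw [e, mul_comm] at h4
      exact hle _ _ _ h4 (by linarith)
  refine ⟨h1, ?_, Pool.Agent.Q158.EqD.tendsto_iff⟩
  intro η hη
  obtain ⟨K, hK, H⟩ := h1 0.4 4 (η / 2) (by norm_num) (by positivity)
  have hpi1 : (3.14 : ℝ) < π := Real.pi_gt_d2
  have hpi2 : π < (3.15 : ℝ) := Real.pi_lt_d2
  refine ⟨√K, Real.sqrt_pos.2 hK, ?_⟩
  intro N hN
  have hN1 : (1 : ℝ) ≤ N := by exact_mod_cast hN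
  have hN0 : (0 : ℝ) < N := by linarith
  set Z := √K * (N : ℝ) ^ (-(1 / (6 + η))) with hZ
  have hZ0 : 0 ≤ Z := by positivity
  have h7 : Z * Z = K * (N : ℝ) ^ (-(1 / (3 + η / 2))) := by
    have e1 : Z * Z = (√K * √K) * ((N : ℝ) ^ (-(1 / (6 + η))) * (N : ℝ) ^ (-(1 / (6 + η)))) := by
      rw [hZ]; ring
    rw [e1, Real.mul_self_sqrt hK.le, ← Real.rpow_add hN0]
    congr 2
    field_simp
    ring
  have h8 : K * (N : ℝ) ^ (-(1 / (2 + η / 2))) ≤ Z * Z := by
    rw [h7]
    apply mul_le_mul_of_nonneg_left _ hK.le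
    apply Real.rpow_le_rpow_of_exponent_le hN1
    rw [neg_le_neg_iff]
    apply one_div_le_one_div_of_le (by positivity)
    linarith
  -- any two of the four numbers
  have hpair : ∀ i j : Fin 4, i ≠ j → ∀ L M : ℕ, N ≤ L → N ≤ M →
      discrepancy (four π i) L * discrepancy (four π j) M ≤ Z * Z := by
    intro i j hij L M hL hM
    have hA := H π (by linarith) (by linarith)
      (by rw [abs_of_pos (by linarith)]; linarith) N L M hN hL hM
    have hB := H π (by linarith) (by linarith)
      (by rw [abs_of_pos (by linarith)]; linarith) N M L hN hM hL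
    obtain ⟨a1, a2, a3, a4, a5, a6⟩ := hA
    obtain ⟨b1, b2, b3, b4, b5, b6⟩ := hB
    rw [← h7] at a5 a6 b5 b6
    replace a1 := a1.trans h8
    replace a2 := a2.trans h8
    replace a3 := a3.trans h8
    replace a4 := a4.trans h8
    replace b1 := b1.trans h8
    replace b2 := b2.trans h8
    replace b3 := b3.trans h8
    replace b4 := b4.trans h8
    rw [mul_comm] at b1 b2 b3 b4 b5 b6
    fin_cases i <;> fin_cases j <;> first
      | exact absurd rfl hij
      | exact a1
      | exact a2
      | exact a3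
      | exact a4
      | exact a5
      | exact a6
      | exact b1
      | exact b2
      | exact b3
      | exact b4
      | exact b5
      | exact b6
  by_contra hcon
  push Not at hcon
  obtain ⟨i, _, L, hL, h2⟩ := hcon 0
  obtain ⟨j, hji, M, hM, h3⟩ := hcon i
  have h4 := hpair i j hji.symm L M hL hM
  have h5 := mul_lt_mul'' h2 h3 hZ0 hZ0
  linarith

/-- `y` looks transcendental at the scale `N`: the discrepancies of `P(y)` are at most `K N ^ (-κ)`
at all scales `M ≥ N` for all nonconstant integer polynomials of degree at most `d` with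
coefficients at most `N ^ κ`. -/
def LooksTranscendental (d : ℕ) (κ K : ℝ) (N : ℕ) (y : ℝ) : Prop :=
  ∀ P : ℤ[X], 0 < P.natDegree → P.natDegree ≤ d → (∀ i, |(P.coeff i : ℝ)| ≤ (N : ℝ) ^ κ) →
    ∀ M : ℕ, N ≤ M → discrepancy (aeval y P) M ≤ K * (N : ℝ) ^ (-κ)

/-- The value `u(x, y)` of a polynomial `u` in `X` and `Y`, considered as a polynomial in `Y` whose
coefficients are polynomials in `X`. -/
def value (x y : ℝ) (u : ℤ[X][X]) : ℝ := u.eval₂ (eval₂RingHom (Int.castRingHom ℝ) x) y

/-- The degree of `u` in each of the variables is at most `k`, the coefficients are at most `H` in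
absolute value. -/
def Bounded (k : ℕ) (H : ℝ) (u : ℤ[X][X]) : Prop :=
  u.natDegree ≤ k ∧ (∀ i, (u.coeff i).natDegree ≤ k) ∧ ∀ i j, |((u.coeff i).coeff j : ℝ)| ≤ H

/-- `u / v` is algebraic modulo `f`: the numerator of `g(u / v)` is divisible by `f` for some nonconstant
integer polynomial `g`. -/
def AlgebraicMod (f u v : ℤ[X][X]) : Prop :=
  ∃ g : ℤ[X], 0 < g.natDegree ∧
    f ∣ ∑ i ∈ Finset.range (g.natDegree + 1), C (C (g.coeff i)) * (u ^ i * v ^ (g.natDegree - i))

theorem general (k d : ℕ) : ∃ κ K : ℝ, 0 < κ ∧ 0 < K ∧ ∀ N : ℕ, 0 < N →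
    ∃ f : ℤ[X][X], (Irreducible f ∧ 0 < f.natDegree ∧ (∃ i, 0 < (f.coeff i).natDegree) ∧
      ∀ u v : ℤ[X][X], Bounded k ((N : ℝ) ^ κ) u → Bounded k ((N : ℝ) ^ κ) v →
        value (exp 1) π v ≠ 0 → |value (exp 1) π u| ≤ (N : ℝ) ^ κ * |value (exp 1) π v| →
        LooksTranscendental d κ K N (value (exp 1) π u / value (exp 1) π v) ∨ AlgebraicMod f u v) ∧
      0 < (Polynomial.Bivariate.swap f).natDegree ∧ Pool.Agent.Q158.EqD.NotPM f := by
  obtain ⟨κ, K, h1, h2, h3⟩ := Pool.Agent.Q158.EqD.trans_field_both' (exp 1) π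
    Pool.Agent.Q158.EqD.measR_e Pool.Agent.Q158.EqD.measR_pi
    (fun h => by linarith [pi_gt_three, exp_one_lt_d9]) (fun h => by linarith [pi_pos, exp_pos 1]) k d
  refine ⟨κ, K, h1, h2, fun N hN => ?_⟩
  obtain ⟨f, hf1, hf2, hf3, hf5, hf4⟩ := h3 N hN
  refine ⟨f, ⟨hf1, hf2, ?_, ?_⟩, hf3, hf5⟩
  · by_contra hcon
    push Not at hcon
    have := (Pool.Agent.Q158.EqD.swap_natDegree_le f 0).2 hcon
    omega
  · intro u v hu hv hv0 huv
    by_cases hU : LooksTranscendental d κ K N (value (exp 1) π u / value (exp 1) π v)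
    · exact Or.inl hU
    · right
      unfold LooksTranscendental at hU
      push Not at hU
      obtain ⟨P, hP0, hPd, hPc, hbad⟩ := hU
      exact hf4 u v hu hv hv0 huv P hP0 hPd hPc hbad

open Pool.Agent.Q158.EqD in
/-- the four numbers -/
theorem fourth (d : ℕ) : ∃ κ K : ℝ, 0 < κ ∧ 0 < K ∧ ∀ N : ℕ, 0 < N →
    ∃ i₀ : Fin 4, ∀ i : Fin 4, i ≠ i₀ → LooksTranscendental d κ K N (four π i) := by
  obtain ⟨κ, K, h1, h2, h3⟩ := general 1 d
  -- for small `N` the discrepancies are bounded by one
  refine ⟨κ, K + 12, h1, by linarith, fun N hN => ?_⟩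
  have hN1 : (1 : ℝ) ≤ N := by exact_mod_cast hN
  have hN0 : (0 : ℝ) < N := by linarith
  have hw1 : 1 ≤ (N : ℝ) ^ κ := Real.one_le_rpow hN1 h1.le
  have hneg : (N : ℝ) ^ (-κ) = 1 / (N : ℝ) ^ κ := by rw [Real.rpow_neg hN0.le, one_div]
  have hneg0 : 0 < (N : ℝ) ^ (-κ) := by rw [hneg]; positivity
  by_cases hbig : (N : ℝ) ^ κ < 12
  · refine ⟨0, fun i _ P _ _ _ M _ => (disc_le_one _ M).trans ?_⟩
    have h5 : 1 ≤ 12 * (N : ℝ) ^ (-κ) := by
      rw [hneg, mul_one_div, le_div_iff₀ (by linarith)]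
      linarith
    have h6 : 0 ≤ K * (N : ℝ) ^ (-κ) := by positivity
    have h7 : (K + 12) * (N : ℝ) ^ (-κ) = K * (N : ℝ) ^ (-κ) + 12 * (N : ℝ) ^ (-κ) := by ring
    linarith
  push Not at hbig
  obtain ⟨f, ⟨hf1, hf2, hf3, hf4⟩, hf5, hf6⟩ := h3 N hN
  obtain ⟨y, hy⟩ := exists_root f hf2
  have hyt := root_trans f hf1 hf2 hf5 y hy
  obtain ⟨hpm1, hpm2⟩ := hf6 y hy
  have hfour := four_alg y hyt hpm1 hpm2
  have hπ := pi_pos
  have he := exp_pos 1
  have hπ4 : π < 4 := by linarith [pi_lt_d2]
  have he3 : exp 1 < 3 := by linarith [exp_one_lt_d9]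
  have he2 : 2 < exp 1 := by linarith [exp_one_gt_d9]
  have hx : value (exp 1) π (C X) = exp 1 := by
    unfold value
    rw [eval₂_C, coe_eval₂RingHom, eval₂_X]
  have hyv : value (exp 1) π X = π := by
    unfold value
    rw [eval₂_X]
  have hadd : ∀ a b : ℤ[X][X], value (exp 1) π (a + b) = value (exp 1) π a + value (exp 1) π b :=
    fun a b => by unfold value; rw [eval₂_add]
  have hsub : ∀ a b : ℤ[X][X], value (exp 1) π (a - b) = value (exp 1) π a - value (exp 1) π b :=
    fun a b => by unfold value; rw [eval₂_sub]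
  have hmul : ∀ a b : ℤ[X][X], value (exp 1) π (a * b) = value (exp 1) π a * value (exp 1) π b :=
    fun a b => map_mul (eval₂RingHom (eval₂RingHom (Int.castRingHom ℝ) (exp 1)) π) a b
  have hone : value (exp 1) π 1 = 1 := by unfold value; rw [eval₂_one]
  -- bounds of the coefficients
  have hw0 : 0 ≤ (N : ℝ) ^ κ := by linarith
  have b1 : Bounded 1 ((N : ℝ) ^ κ) (1 : ℤ[X][X]) := by
    refine ⟨by simp, fun i => ?_, fun i j => ?_⟩
    · rw [coeff_one]; split_ifs <;> simp
    · rw [coeff_one]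
      split_ifs
      · rw [coeff_one]
        split_ifs
        · simpa using hw1
        · simpa using hw0
      · simpa using hw0
  have bX : Bounded 1 ((N : ℝ) ^ κ) (C X : ℤ[X][X]) := by
    refine ⟨by rw [natDegree_C]; omega, fun i => ?_, fun i j => ?_⟩
    · rw [coeff_C]; split_ifs <;> simp
    · rw [coeff_C]
      split_ifs
      · rw [coeff_X]
        split_ifs
        · simpa using hw1
        · simpa using hw0
      · simpa using hw0
  have bsum : ∀ c : ℤ, (c = 1 ∨ c = -1) → Bounded 1 ((N : ℝ) ^ κ) (X + C (C c * X) : ℤ[X][X]) := by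
    intro c hc
    have hc1 : |(c : ℝ)| = 1 := by rcases hc with h | h <;> simp [h]
    refine ⟨by rw [natDegree_X_add_C], fun i => ?_, fun i j => ?_⟩
    · rw [coeff_add, coeff_X, coeff_C]
      split_ifs
      · omega
      · rw [add_zero, natDegree_one]; omega
      · rw [zero_add]
        exact (natDegree_C_mul_le _ _).trans (by rw [natDegree_X])
      · rw [add_zero, natDegree_zero]; omega
    · rw [coeff_add, coeff_X, coeff_C]
      split_ifs with e1 e2 e2
      · omega
      · rw [add_zero, coeff_one]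
        split_ifs
        · simpa using hw1
        · simpa using hw0
      · rw [zero_add, coeff_C_mul, coeff_X]
        split_ifs
        · push_cast
          rw [mul_one, hc1]
          exact hw1
        · simpa using hw0
      · simpa using hw0
  have bp : Bounded 1 ((N : ℝ) ^ κ) (X + C X : ℤ[X][X]) := by
    have := bsum 1 (Or.inl rfl)
    rwa [C_1, one_mul] at this
  have bm : Bounded 1 ((N : ℝ) ^ κ) (X - C X : ℤ[X][X]) := by
    have := bsum (-1) (Or.inr rfl)
    have e : (X + C (C (-1) * X) : ℤ[X][X]) = X - C X := by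
      rw [C_mul, C_neg, C_neg, C_1, C_1]; ring
    rwa [e] at this
  have bmul : Bounded 1 ((N : ℝ) ^ κ) (X * C X : ℤ[X][X]) := by
    have e : (X * C X : ℤ[X][X]) = monomial 1 X := by
      rw [mul_comm, C_mul_X_eq_monomial]
    rw [e]
    refine ⟨natDegree_monomial_le _, fun i => ?_, fun i j => ?_⟩
    · rw [coeff_monomial]; split_ifs <;> simp
    · rw [coeff_monomial]
      split_ifs
      · rw [coeff_X]
        split_ifs
        · simpa using hw1
        · simpa using hw0
      · simpa using hw0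
  have bY : Bounded 1 ((N : ℝ) ^ κ) (X : ℤ[X][X]) := by
    refine ⟨by rw [natDegree_X], fun i => ?_, fun i j => ?_⟩
    · rw [coeff_X]; split_ifs <;> simp
    · rw [coeff_X]
      split_ifs
      · rw [coeff_one]
        split_ifs
        · simpa using hw1
        · simpa using hw0
      · simpa using hw0
  -- the four alternatives
  have g0 := hf4 (X + C X) 1 bp b1 (by rw [hone]; exact one_ne_zero) (by
    rw [hadd, hx, hyv, hone, abs_one, mul_one, abs_of_pos (by linarith)]; linarith)
  have g1 := hf4 (X - C X) 1 bm b1 (by rw [hone]; exact one_ne_zero) (by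
    rw [hsub, hx, hyv, hone, abs_one, mul_one, abs_of_pos (by linarith [pi_gt_three])]; linarith)
  have g2 := hf4 (X * C X) 1 bmul b1 (by rw [hone]; exact one_ne_zero) (by
    rw [hmul, hx, hyv, hone, abs_one, mul_one, abs_of_pos (by positivity)]; nlinarith)
  have g3 := hf4 X (C X) bY bX (by rw [hx]; positivity) (by
    rw [hx, hyv, abs_of_pos hπ, abs_of_pos he]; nlinarith)
  rw [hadd, hx, hyv, hone, div_one] at g0
  rw [hsub, hx, hyv, hone, div_one] at g1
  rw [hmul, hx, hyv, hone, div_one] at g2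
  rw [hx, hyv] at g3
  have k1 : evL y (1 : ℤ[X][X]) ≠ 0 := by rw [map_one]; exact one_ne_zero
  have k2 : evL y (C X : ℤ[X][X]) ≠ 0 := by rw [evL_C]; exact xL_ne
  have a0 : ¬ LooksTranscendental d κ K N (four π 0) → IsAlgebraic ℤ (y + xL) := by
    intro h
    have := AlgMod.isAlgebraic (u := (X + C X)) (v := 1) (g0.resolve_left h) y hy k1
    rwa [map_one, div_one, map_add, evL_Y, evL_C] at this
  have a1 : ¬ LooksTranscendental d κ K N (four π 1) → IsAlgebraic ℤ (y - xL) := by
    intro h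
    have := AlgMod.isAlgebraic (u := (X - C X)) (v := 1) (g1.resolve_left h) y hy k1
    rwa [map_one, div_one, map_sub, evL_Y, evL_C] at this
  have a2 : ¬ LooksTranscendental d κ K N (four π 2) → IsAlgebraic ℤ (xL * y) := by
    intro h
    have := AlgMod.isAlgebraic (u := (X * C X)) (v := 1) (g2.resolve_left h) y hy k1
    rw [map_one, div_one, map_mul, evL_Y, evL_C, mul_comm] at this
    exact this
  have a3 : ¬ LooksTranscendental d κ K N (four π 3) → IsAlgebraic ℤ (y / xL) := by
    intro h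
    have := AlgMod.isAlgebraic (u := X) (v := (C X)) (g3.resolve_left h) y hy k2
    rwa [evL_Y, evL_C] at this
  obtain ⟨f1, f2, f3, f4, f5, f6⟩ := hfour
  -- the larger constant
  have hmono : ∀ i, LooksTranscendental d κ K N (four π i) →
      LooksTranscendental d κ (K + 12) N (four π i) := by
    intro i h P hP0 hPd hPc M hM
    refine (h P hP0 hPd hPc M hM).trans ?_
    have : (K + 12) * (N : ℝ) ^ (-κ) = K * (N : ℝ) ^ (-κ) + 12 * (N : ℝ) ^ (-κ) := by ring
    linarith
  have fin : ∀ i₀ : Fin 4, (∀ i : Fin 4, i ≠ i₀ → LooksTranscendental d κ K N (four π i)) →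
      ∃ i₀ : Fin 4, ∀ i : Fin 4, i ≠ i₀ → LooksTranscendental d κ (K + 12) N (four π i) :=
    fun i₀ h => ⟨i₀, fun i hi => hmono i (h i hi)⟩
  by_cases c0 : LooksTranscendental d κ K N (four π 0)
  · by_cases c1 : LooksTranscendental d κ K N (four π 1)
    · by_cases c2 : LooksTranscendental d κ K N (four π 2)
      · apply fin 3
        intro i hi
        fin_cases i
        · exact c0
        · exact c1
        · exact c2
        · exact absurd rfl hi
      · apply fin 2
        intro i hi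
        fin_cases i
        · exact c0
        · exact c1
        · exact absurd rfl hi
        · by_contra c3
          exact f6 (a2 c2) (a3 c3)
    · apply fin 1
      intro i hi
      fin_cases i
      · exact c0
      · exact absurd rfl hi
      · by_contra c2
        exact f4 (a1 c1) (a2 c2)
      · by_contra c3
        exact f5 (a1 c1) (a3 c3)
  · apply fin 0
    intro i hi
    fin_cases i
    · exact absurd rfl hi
    · by_contra c1
      exact f1 (a0 c0) (a1 c1)
    · by_contra c2
      exact f2 (a0 c0) (a2 c2)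
    · by_contra c3
      exact f3 (a0 c0) (a3 c3)

theorem resultB :
    -- at every scale three of the four numbers look transcendental
    (∀ d : ℕ, ∃ κ K : ℝ, 0 < κ ∧ 0 < K ∧ ∀ N : ℕ, 0 < N →
      ∃ i₀ : Fin 4, ∀ i : Fin 4, i ≠ i₀ → LooksTranscendental d κ K N (four π i)) ∧
    -- at every scale the rational functions which look algebraic are algebraic on one curve
    (∀ k d : ℕ, ∃ κ K : ℝ, 0 < κ ∧ 0 < K ∧ ∀ N : ℕ, 0 < N →
      ∃ f : ℤ[X][X], Irreducible f ∧ 0 < f.natDegree ∧ (∃ i, 0 < (f.coeff i).natDegree) ∧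
        ∀ u v : ℤ[X][X], Bounded k ((N : ℝ) ^ κ) u → Bounded k ((N : ℝ) ^ κ) v →
          value (exp 1) π v ≠ 0 → |value (exp 1) π u| ≤ (N : ℝ) ^ κ * |value (exp 1) π v| →
          LooksTranscendental d κ K N (value (exp 1) π u / value (exp 1) π v) ∨
            AlgebraicMod f u v) ∧
    -- a number is transcendental exactly if the discrepancies of all values tend to zero
    (∀ y : ℝ, Transcendental ℚ y ↔ ∀ P : ℤ[X], 0 < P.natDegree →
      Filter.Tendsto (fun N : ℕ => discrepancy (aeval y P) N) Filter.atTop (nhds 0)) := by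
  refine ⟨fourth, ?_, Pool.Agent.Q158.EqD.trans_iff⟩
  intro k d
  obtain ⟨κ, K, h1, h2, h3⟩ := general k d
  refine ⟨κ, K, h1, h2, fun N hN => ?_⟩
  obtain ⟨f, ⟨a, b, c, e⟩, _⟩ := h3 N hN
  exact ⟨f, a, b, c, e⟩

theorem result :
    -- any two of the four numbers
    (∀ τ T η : ℝ, 0 < τ → 0 < η → ∃ K : ℝ, 0 < K ∧ ∀ t : ℝ, τ ≤ t → t ≤ T → τ ≤ |t - exp 1| →
      ∀ N L M : ℕ, 0 < N → N ≤ L → N ≤ M →
        discrepancy (t + exp 1) L * discrepancy (t - exp 1) M ≤ K * (N : ℝ) ^ (-(1 / (2 + η))) ∧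
        discrepancy (t + exp 1) L * discrepancy (t / exp 1) M ≤ K * (N : ℝ) ^ (-(1 / (2 + η))) ∧
        discrepancy (t - exp 1) L * discrepancy (t / exp 1) M ≤ K * (N : ℝ) ^ (-(1 / (2 + η))) ∧
        discrepancy (t * exp 1) L * discrepancy (t / exp 1) M ≤ K * (N : ℝ) ^ (-(1 / (2 + η))) ∧
        discrepancy (t + exp 1) L * discrepancy (t * exp 1) M ≤ K * (N : ℝ) ^ (-(1 / (3 + η))) ∧
        discrepancy (t - exp 1) L * discrepancy (t * exp 1) M ≤ K * (N : ℝ) ^ (-(1 / (3 + η)))) ∧
    -- at every scale at least three of the four numbers formed with `π` are good from there on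
    (∀ η : ℝ, 0 < η → ∃ K : ℝ, 0 < K ∧ ∀ N : ℕ, 0 < N → ∃ i₀ : Fin 4, ∀ i : Fin 4, i ≠ i₀ →
      ∀ M : ℕ, N ≤ M → discrepancy (four π i) M ≤ K * (N : ℝ) ^ (-(1 / (6 + η)))) ∧
    -- the discrepancy tends to zero exactly for the irrational numbers
    (∀ x : ℝ, Filter.Tendsto (fun N : ℕ => discrepancy x N) Filter.atTop (nhds 0) ↔
      Irrational x) ∧
    -- at every scale three of the four numbers look transcendental
    (∀ d : ℕ, ∃ κ K : ℝ, 0 < κ ∧ 0 < K ∧ ∀ N : ℕ, 0 < N →
      ∃ i₀ : Fin 4, ∀ i : Fin 4, i ≠ i₀ → LooksTranscendental d κ K N (four π i)) ∧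
    -- at every scale the rational functions which look algebraic are algebraic on one curve
    (∀ k d : ℕ, ∃ κ K : ℝ, 0 < κ ∧ 0 < K ∧ ∀ N : ℕ, 0 < N →
      ∃ f : ℤ[X][X], Irreducible f ∧ 0 < f.natDegree ∧ (∃ i, 0 < (f.coeff i).natDegree) ∧
        ∀ u v : ℤ[X][X], Bounded k ((N : ℝ) ^ κ) u → Bounded k ((N : ℝ) ^ κ) v →
          value (exp 1) π v ≠ 0 → |value (exp 1) π u| ≤ (N : ℝ) ^ κ * |value (exp 1) π v| →
          LooksTranscendental d κ K N (value (exp 1) π u / value (exp 1) π v) ∨
            AlgebraicMod f u v) ∧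
    -- a number is transcendental exactly if the discrepancies of all values tend to zero
    (∀ y : ℝ, Transcendental ℚ y ↔ ∀ P : ℤ[X], 0 < P.natDegree →
      Filter.Tendsto (fun N : ℕ => discrepancy (aeval y P) N) Filter.atTop (nhds 0)) :=
  ⟨resultA.1,
    resultA.2.1,
    resultA.2.2,
    resultB.1,
    resultB.2.1,
    resultB.2.2⟩

end

end Pool.Agent.Results.MP_a2f59b_nt.AtEveryScale
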