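import Mathlib
import Pool.Agent.Q199.Dg.Rat2

/-!
# Blocks of digits of `π + e`, `π - e`, `π e`, `π / e` and of all `(P(e) π + Q(e)) / R(e)`

1. Let `d ≥ 0` and `η > 0`. There is `K` such that for ALL real numbers `t`, all `H ≥ 1`, all bases
   `b` and all `s, n, l` with `K H^(6 d + 2 + 3 η) b^((4 d + 1 + 2 η) n + (2 d + η) s) ≤ b^l` there is
   ONE rational function `τ = U / S`, `U, S ∈ ℤ[X]`, with the following property: for all the numbers
   `y = (P(e) t + Q(e)) / R(e)`, `|y| ≤ H`, with `P, Q, R ∈ ℤ[X]` of degree at most `d` with coefficients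
   at most `H`, `P, R ≠ 0`, for which two of the `n + 1` blocks of `l` digits beginning at the
   places `s, …, s + n` coincide, the rational function `(P τ + Q) / R` is CONSTANT, equal to a
   rational number `p / q` with `0 < q ≤ b^(s + n)` and `|q y - p| < b^(-l)`. So all the numbers which
   look rational at this scale behave as if `t` were the number `τ(e)` of `ℚ(e)`.
2. Let `η, κ > 0`. There is `C` such that for all real `t` with `|t| ≤ T`, `|t|, |t - e|, |t + e| ≥ κ`,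
   all bases `b` and all `s, n, L` with `L ≥ (6 + η) n + (2 + η) s + C` at least THREE of the four
   numbers `t + e, t - e, t e, t / e` have more than `n` different blocks of `n` digits among their
   digits of the places `s, …, s + L - 1`. This holds for `t = π`.
3. Let `ε > 0`, `λ > 4 d + 2 + (6 d + 2) ε`. For all real `t`: `t = A(e) / B(e)` with `A, B ∈ ℤ[X]` of
   degree at most `d` if and only if for all large `n` there are `P, Q, R` as in 1 with
   `H = b^(ε n)` such that `(P(e) t + Q(e)) / R(e)` has at most `n` different blocks of `n` digits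
   among its first `⌈λ n⌉` digits.
4. So `π ≠ (a + b e) / (c + d e)` for all integers `a, b, c, d` if and only if for infinitely many `n`
   ALL numbers `(P(e) π + Q(e)) / R(e)` with linear polynomials `P, Q, R`, `P, R ≠ 0`, with coefficients
   at most `10^(n/9)`, and of absolute value at most `10^(n/9)`, have more than `n` different
   blocks of `n` decimals among their first `7 n` decimals.
-/

set_option autoImplicit false

open Real Filter Polynomial

namespace Pool.Agent.Results.MP_a2f59b_nt.BlocksAtEveryScale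

noncomputable section

/-- the digit of the place `n = 0, 1, …` after the point in the base `b` expansion of `x` -/
def digit (b : ℕ) (x : ℝ) (n : ℕ) : ℤ := ⌊x * (b : ℝ) ^ (n + 1)⌋ % (b : ℤ)

/-- two of the `n + 1` blocks of `l` digits of `x` which begin at the places `s, …, s + n`
coincide -/
def Repeats (b : ℕ) (x : ℝ) (s n l : ℕ) : Prop :=
  ∃ i j, i < j ∧ j ≤ n ∧ ∀ k < l, digit b x (s + i + k) = digit b x (s + j + k)

/-- the number of different blocks of `n` digits among the digits of `x` of the places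
`s, …, s + L - 1` -/
def blocks (b : ℕ) (x : ℝ) (s n L : ℕ) : ℕ :=
  ((Finset.range (L + 1 - n)).image fun i => fun k : Fin n => digit b x (s + i + k)).card

/-- the number `(P(e) t + Q(e)) / R(e)` -/
def value (t : ℝ) (P Q R : ℤ[X]) : ℝ :=
  (aeval (exp 1) P * t + aeval (exp 1) Q) / aeval (exp 1) R

/-- `P, R ≠ 0`, the degrees are at most `d`, the coefficients and the number are at most `H` -/
def Family (d : ℕ) (H t : ℝ) (P Q R : ℤ[X]) : Prop :=
  P ≠ 0 ∧ R ≠ 0 ∧ P.natDegree ≤ d ∧ Q.natDegree ≤ d ∧ R.natDegree ≤ d ∧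
    (∀ i, |(P.coeff i : ℝ)| ≤ H) ∧ (∀ i, |(Q.coeff i : ℝ)| ≤ H) ∧ (∀ i, |(R.coeff i : ℝ)| ≤ H) ∧
    |value t P Q R| ≤ H

theorem one (d : ℕ) (η : ℝ) (hη : 0 < η) : ∃ K : ℝ, 1 ≤ K ∧ ∀ (t H : ℝ), 1 ≤ H →
    ∀ b : ℕ, 2 ≤ b → ∀ s n l : ℕ,
      K * (H ^ (6 * (d : ℝ) + 2 + 3 * η) * (b : ℝ) ^ ((4 * (d : ℝ) + 1 + 2 * η) * n +
        (2 * d + η) * s)) ≤ (b : ℝ) ^ l →
      ∃ U S : ℤ[X], S ≠ 0 ∧ ∀ P Q R : ℤ[X], Family d H t P Q R → Repeats b (value t P Q R) s n l →
        ∃ p q : ℤ, 0 < q ∧ (q : ℝ) ≤ (b : ℝ) ^ (s + n) ∧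
          |value t P Q R * q - p| * (b : ℝ) ^ l < 1 ∧ C q * (P * U + Q * S) = C p * (R * S) :=
  Pool.Agent.Q199.Dg.rat_one d η hη

/-- the four numbers -/
def four (t : ℝ) : Fin 4 → ℝ := ![t + exp 1, t - exp 1, t * exp 1, t / exp 1]

theorem quad (a b c : ℤ) (S : ℤ[X]) (hS : S ≠ 0) (h : (C a + C b * X + C c * X ^ 2) * S = 0) :
    a = 0 ∧ b = 0 ∧ c = 0 := by
  have h1 := (mul_eq_zero.1 h).resolve_right hS
  have k : ∀ j : ℕ, (if j = 0 then a else 0) + b * (if 1 = j then 1 else 0) +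
      c * (if j = 2 then 1 else 0) = 0 := by
    intro j
    have h2 := congrArg (fun P : ℤ[X] => P.coeff j) h1
    simp only [coeff_add, coeff_C_mul, coeff_C, coeff_X, coeff_X_pow, coeff_zero] at h2
    exact h2
  refine ⟨?_, ?_, ?_⟩
  · simpa using k 0
  · simpa using k 1
  · simpa using k 2

/-- the triple of the number `i` -/
def PP : Fin 4 → ℤ[X] := ![1, 1, X, 1]
def QQ : Fin 4 → ℤ[X] := ![X, -X, 0, 0]
def RR : Fin 4 → ℤ[X] := ![1, 1, 1, X]

theorem value_four (t : ℝ) (i : Fin 4) : value t (PP i) (QQ i) (RR i) = four t i := by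
  unfold value PP QQ RR four
  fin_cases i
  · simp
  · simp
    ring
  · simp
    ring
  · simp

theorem family_four (T t : ℝ) (hT : 0 ≤ T) (ht : |t| ≤ T) (i : Fin 4) :
    Family 1 (3 * T + 3) t (PP i) (QQ i) (RR i) := by
  have he := Real.exp_one_lt_d9
  have he1 := Real.exp_one_gt_d9
  have he0 := Real.exp_pos 1
  have ht0 := abs_nonneg t
  have hone : ∀ k : ℕ, |(((1 : ℤ[X]).coeff k : ℤ) : ℝ)| ≤ 3 * T + 3 := by
    intro k
    rw [coeff_one]
    split_ifs
    · rw [Int.cast_one, abs_one]; linarith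
    · rw [Int.cast_zero, abs_zero]; linarith
  have hX : ∀ k : ℕ, |(((X : ℤ[X]).coeff k : ℤ) : ℝ)| ≤ 3 * T + 3 := by
    intro k
    rw [coeff_X]
    split_ifs
    · rw [Int.cast_one, abs_one]; linarith
    · rw [Int.cast_zero, abs_zero]; linarith
  have hX' : ∀ k : ℕ, |(((-X : ℤ[X]).coeff k : ℤ) : ℝ)| ≤ 3 * T + 3 := by
    intro k
    rw [coeff_neg, Int.cast_neg, abs_neg]
    exact hX k
  have h0 : ∀ k : ℕ, |(((0 : ℤ[X]).coeff k : ℤ) : ℝ)| ≤ 3 * T + 3 := by
    intro k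
    rw [coeff_zero, Int.cast_zero, abs_zero]; linarith
  have d1 : (1 : ℤ[X]).natDegree ≤ 1 := by simp
  have dX : (X : ℤ[X]).natDegree ≤ 1 := natDegree_X_le
  have dX' : (-X : ℤ[X]).natDegree ≤ 1 := by rw [natDegree_neg]; exact natDegree_X_le
  have d0 : (0 : ℤ[X]).natDegree ≤ 1 := by simp
  have hval := value_four t i
  unfold Family
  rw [hval]
  unfold PP QQ RR four
  fin_cases i
  · refine ⟨one_ne_zero, one_ne_zero, d1, dX, d1, hone, hX, hone, ?_⟩
    show |t + exp 1| ≤ _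
    refine (abs_add_le _ _).trans ?_
    rw [abs_of_pos he0]; linarith
  · refine ⟨one_ne_zero, one_ne_zero, d1, dX', d1, hone, hX', hone, ?_⟩
    show |t - exp 1| ≤ _
    refine (abs_sub _ _).trans ?_
    rw [abs_of_pos he0]; linarith
  · refine ⟨X_ne_zero, one_ne_zero, dX, d0, d1, hX, h0, hone, ?_⟩
    show |t * exp 1| ≤ _
    rw [abs_mul, abs_of_pos he0]
    nlinarith
  · refine ⟨one_ne_zero, X_ne_zero, d1, d0, dX, hone, h0, hX, ?_⟩
    show |t / exp 1| ≤ _
    rw [abs_div, abs_of_pos he0]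
    have : |t| / exp 1 ≤ |t| := div_le_self ht0 (by linarith)
    linarith

theorem three (T η κ : ℝ) (hT : 0 ≤ T) (hη : 0 < η) (hκ : 0 < κ) :
    ∃ C : ℕ, ∀ t : ℝ, |t| ≤ T → κ ≤ |t| → κ ≤ |t - exp 1| → κ ≤ |t + exp 1| → ∀ b : ℕ, 2 ≤ b →
      ∀ s n L : ℕ, (6 + η) * n + (2 + η) * s + C ≤ L → ∀ i j : Fin 4, i < j →
        n < blocks b (four t i) s n L ∨ n < blocks b (four t j) s n L := by
  obtain ⟨K, hK, hone⟩ := one 1 (η / 2) (by positivity)
  set H : ℝ := 3 * T + 3 with hH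
  have hH1 : 1 ≤ H := by rw [hH]; linarith
  set Z : ℝ := K * H ^ (6 * ((1 : ℕ) : ℝ) + 2 + 3 * (η / 2)) with hZ
  have hHp : 0 < H ^ (6 * ((1 : ℕ) : ℝ) + 2 + 3 * (η / 2)) := by positivity
  have hZ0 : 0 < Z := by positivity
  obtain ⟨C1, hC1⟩ := pow_unbounded_of_one_lt (max Z (3 / κ)) (by norm_num : (1 : ℝ) < 2)
  refine ⟨C1, fun t ht h0 h1 h2 b hb s n L hL i j hij => ?_⟩
  by_contra hcon
  push Not at hcon
  obtain ⟨hi, hj⟩ := hcon
  have hn : (0 : ℝ) ≤ n := by positivity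
  have hs : (0 : ℝ) ≤ s := by positivity
  have hb2 : (2 : ℝ) ≤ b := by exact_mod_cast hb
  have hb0 : (0 : ℝ) < b := by linarith
  have hηn : 0 ≤ η * n := by positivity
  have hηs : 0 ≤ η * s := by positivity
  have hLn : 2 * n ≤ L := by
    have : ((2 * n : ℕ) : ℝ) ≤ L := by
      push_cast
      have : (0 : ℝ) ≤ C1 := by positivity
      nlinarith
    exact_mod_cast this
  have hri := Pool.Agent.Q199.Dg.rep_of_few b _ s n L hLn hi
  have hrj := Pool.Agent.Q199.Dg.rep_of_few b _ s n L hLn hj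
  have hLcast : ((L - n : ℕ) : ℝ) = L - n := by rw [Nat.cast_sub (by omega)]
  -- the size of `b ^ (L - n)`
  have hCle : (2 : ℝ) ^ C1 ≤ (b : ℝ) ^ (C1 : ℝ) := by
    rw [Real.rpow_natCast]
    exact pow_le_pow_left₀ (by norm_num) hb2 C1
  have hbig : (b : ℝ) ^ (C1 : ℝ) * (b : ℝ) ^ ((4 * ((1 : ℕ) : ℝ) + 1 + 2 * (η / 2)) * n +
      (2 * ((1 : ℕ) : ℝ) + η / 2) * s) ≤ (b : ℝ) ^ (L - n) := by
    rw [← Real.rpow_add hb0, ← Real.rpow_natCast (b : ℝ) (L - n), hLcast]
    apply Real.rpow_le_rpow_of_exponent_le (by linarith)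
    push_cast
    nlinarith
  have hpos : 1 ≤ (b : ℝ) ^ ((4 * ((1 : ℕ) : ℝ) + 1 + 2 * (η / 2)) * n +
      (2 * ((1 : ℕ) : ℝ) + η / 2) * s) := Real.one_le_rpow (by linarith) (by positivity)
  have hcond : K * (H ^ (6 * ((1 : ℕ) : ℝ) + 2 + 3 * (η / 2)) *
      (b : ℝ) ^ ((4 * ((1 : ℕ) : ℝ) + 1 + 2 * (η / 2)) * n +
        (2 * ((1 : ℕ) : ℝ) + η / 2) * s)) ≤ (b : ℝ) ^ (L - n) := by
    refine le_trans ?_ hbig
    rw [← mul_assoc, ← hZ]
    apply mul_le_mul_of_nonneg_right _ (by positivity)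
    exact (le_max_left _ _).trans (hC1.le.trans hCle)
  have hκ3 : 3 / κ < (b : ℝ) ^ (L - n) := by
    calc 3 / κ ≤ max Z (3 / κ) := le_max_right _ _
      _ < 2 ^ C1 := hC1
      _ ≤ (b : ℝ) ^ (C1 : ℝ) := hCle
      _ ≤ (b : ℝ) ^ (C1 : ℝ) * (b : ℝ) ^ ((4 * ((1 : ℕ) : ℝ) + 1 + 2 * (η / 2)) * n +
          (2 * ((1 : ℕ) : ℝ) + η / 2) * s) := le_mul_of_one_le_right (by positivity) hpos
      _ ≤ _ := hbig
  obtain ⟨U, S, hS, hU⟩ := hone t H hH1 b hb s n (L - n) hcond
  obtain ⟨p, q, hq, -, hpq, hrel⟩ := hU (PP i) (QQ i) (RR i) (family_four T t hT ht i)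
    (by rw [value_four]; exact hri)
  obtain ⟨p', q', hq', -, hpq', hrel'⟩ := hU (PP j) (QQ j) (RR j) (family_four T t hT ht j)
    (by rw [value_four]; exact hrj)
  rw [value_four] at hpq hpq'
  have he := Real.exp_one_lt_d9
  have he0 := Real.exp_pos 1
  have hbl : (0 : ℝ) < (b : ℝ) ^ (L - n) := by positivity
  -- a contradiction from the size of a number
  have fin : ∀ z : ℝ, κ ≤ |z| → |z / exp 1 * q'| * (b : ℝ) ^ (L - n) < 1 → False := by
    intro z hz hlt
    have hq1 : (1 : ℝ) ≤ q' := by exact_mod_cast hq'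
    rw [div_lt_iff₀ hκ] at hκ3
    have e1 : κ / 3 ≤ |z / exp 1 * q'| := by
      rw [abs_mul, abs_div, abs_of_pos he0, abs_of_pos (by linarith : (0 : ℝ) < q')]
      have e2 : κ / 3 ≤ |z| / exp 1 := by
        rw [div_le_div_iff₀ (by norm_num) he0]
        nlinarith
      have e3 : 0 ≤ |z| / exp 1 := by positivity
      nlinarith
    have e4 : κ / 3 * (b : ℝ) ^ (L - n) ≤ |z / exp 1 * q'| * (b : ℝ) ^ (L - n) :=
      mul_le_mul_of_nonneg_right e1 hbl.le
    linarith
  unfold PP QQ RR at hrel hrel'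
  fin_cases i <;> fin_cases j
  · exact absurd hij (by decide)
  · -- `t + e`, `t - e`
    change C q * (1 * U + X * S) = C p * (1 * S) at hrel
    change C q' * (1 * U + -X * S) = C p' * (1 * S) at hrel'
    obtain ⟨-, h5, -⟩ := quad (p' * q - p * q') (2 * q * q') 0 S hS (by
      simp only [C_sub, C_mul, C_0]
      have : (C (2 : ℤ) : ℤ[X]) = 2 := rfl
      rw [this]
      linear_combination (C q') * hrel - (C q) * hrel')
    have : 2 * q * q' ≠ 0 := by positivity
    exact this h5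
  · -- `t + e`, `t e`
    change C q * (1 * U + X * S) = C p * (1 * S) at hrel
    change C q' * (X * U + 0 * S) = C p' * (1 * S) at hrel'
    obtain ⟨-, -, h5⟩ := quad (p' * q) (-(p * q')) (q * q') S hS (by
      simp only [C_neg, C_mul]
      linear_combination (C q' * X) * hrel - (C q) * hrel')
    have : q * q' ≠ 0 := by positivity
    exact this h5
  · -- `t + e`, `t / e`
    change C q * (1 * U + X * S) = C p * (1 * S) at hrel
    change C q' * (1 * U + 0 * S) = C p' * (X * S) at hrel'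
    obtain ⟨-, h5, -⟩ := quad (-(p * q')) (q * p' + q * q') 0 S hS (by
      simp only [C_neg, C_add, C_mul, C_0]
      linear_combination (C q') * hrel - (C q) * hrel')
    have h6 : p' = -q' := by
      have : q * (p' + q') = 0 := by linarith
      have := (mul_eq_zero.1 this).resolve_left hq.ne'
      linarith
    apply fin (t + exp 1) h2
    have e1 : (t + exp 1) / exp 1 * q' = four t 3 * q' - p' := by
      rw [h6]
      show (t + exp 1) / exp 1 * q' = t / exp 1 * q' - ((-q' : ℤ) : ℝ)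
      push_cast
      field_simp
      ring
    rw [e1]
    exact hpq'
  · exact absurd hij (by decide)
  · exact absurd hij (by decide)
  · -- `t - e`, `t e`
    change C q * (1 * U + -X * S) = C p * (1 * S) at hrel
    change C q' * (X * U + 0 * S) = C p' * (1 * S) at hrel'
    obtain ⟨-, -, h5⟩ := quad (p' * q) (-(p * q')) (-(q * q')) S hS (by
      simp only [C_neg, C_mul]
      linear_combination (C q' * X) * hrel - (C q) * hrel')
    have : q * q' ≠ 0 := by positivity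
    omega
  · -- `t - e`, `t / e`
    change C q * (1 * U + -X * S) = C p * (1 * S) at hrel
    change C q' * (1 * U + 0 * S) = C p' * (X * S) at hrel'
    obtain ⟨-, h5, -⟩ := quad (-(p * q')) (q * p' - q * q') 0 S hS (by
      simp only [C_neg, C_sub, C_mul, C_0]
      linear_combination (C q') * hrel - (C q) * hrel')
    have h6 : p' = q' := by
      have : q * (p' - q') = 0 := by linarith
      have := (mul_eq_zero.1 this).resolve_left hq.ne'
      linarith
    apply fin (t - exp 1) h1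
    have e1 : (t - exp 1) / exp 1 * q' = four t 3 * q' - p' := by
      rw [h6]
      show (t - exp 1) / exp 1 * q' = t / exp 1 * q' - (q' : ℝ)
      field_simp
    rw [e1]
    exact hpq'
  · exact absurd hij (by decide)
  · exact absurd hij (by decide)
  · exact absurd hij (by decide)
  · -- `t e`, `t / e`
    change C q * (X * U + 0 * S) = C p * (1 * S) at hrel
    change C q' * (1 * U + 0 * S) = C p' * (X * S) at hrel'
    obtain ⟨-, -, h5⟩ := quad (-(p * q')) 0 (q * p') S hS (by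
      simp only [C_neg, C_mul, C_0]
      linear_combination (C q') * hrel - (C q * X) * hrel')
    have h6 : p' = 0 := (mul_eq_zero.1 h5).resolve_left hq.ne'
    apply fin t h0
    have e1 : t / exp 1 * q' = four t 3 * q' - p' := by
      rw [h6]
      show t / exp 1 * q' = t / exp 1 * q' - ((0 : ℤ) : ℝ)
      push_cast
      ring
    rw [e1]
    exact hpq'
  · exact absurd hij (by decide)
  · exact absurd hij (by decide)
  · exact absurd hij (by decide)
  · exact absurd hij (by decide)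

/-- `t = A(e) / B(e)` with `A, B ∈ ℤ[X]` of degree at most `d` -/
def IsQuotient (d : ℕ) (t : ℝ) : Prop :=
  ∃ A B : ℤ[X], B ≠ 0 ∧ A.natDegree ≤ d ∧ B.natDegree ≤ d ∧
    t = aeval (exp 1) A / aeval (exp 1) B

theorem criterion (d : ℕ) (ε lam : ℝ) (hε : 0 < ε)
    (hl : 4 * (d : ℝ) + 2 + (6 * d + 2) * ε < lam) (b : ℕ) (hb : 2 ≤ b) (t : ℝ) :
    IsQuotient d t ↔ ∀ᶠ n : ℕ in atTop, ∃ P Q R : ℤ[X], Family d ((b : ℝ) ^ (ε * n)) t P Q R ∧
      blocks b (value t P Q R) 0 n ⌈lam * n⌉₊ ≤ n := by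
  refine Iff.trans ?_ (Pool.Agent.Q199.Dg.rat_criterion d ε lam hε hl b hb t)
  constructor
  · rintro ⟨A, B, hB, h1, h2, h3⟩
    refine ⟨B, -A, 1, hB, one_ne_zero, h2, by rw [natDegree_neg]; exact h1, by simp, 0, ?_⟩
    have hB0 := Pool.Agent.Q199.Dg.aeval_ne B hB
    unfold Pool.Agent.Q199.Dg.mv
    rw [h3, map_neg, map_one]
    field_simp
    push_cast
    ring
  · rintro ⟨P, Q, R, hP, hR, h1, h2, h3, r, hr⟩
    have hP0 := Pool.Agent.Q199.Dg.aeval_ne P hP
    have hR0 := Pool.Agent.Q199.Dg.aeval_ne R hR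
    have hden : (r.den : ℤ) ≠ 0 := by exact_mod_cast r.den_pos.ne'
    have hdenR : (r.den : ℝ) ≠ 0 := by exact_mod_cast r.den_pos.ne'
    have hrR : (r : ℝ) = r.num / r.den := by exact_mod_cast (Rat.num_div_den r).symm
    refine ⟨C r.num * R - C (r.den : ℤ) * Q, C (r.den : ℤ) * P,
      mul_ne_zero (by rwa [Ne, C_eq_zero]) hP, ?_, (natDegree_C_mul_le _ _).trans h1, ?_⟩
    · exact (natDegree_sub_le _ _).trans (max_le ((natDegree_C_mul_le _ _).trans h3)
        ((natDegree_C_mul_le _ _).trans h2))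
    · unfold Pool.Agent.Q199.Dg.mv at hr
      rw [div_eq_iff hR0, hrR] at hr
      simp only [map_sub, map_mul, aeval_C]
      simp only [eq_intCast, Int.cast_natCast]
      rw [eq_div_iff (mul_ne_zero hdenR hP0)]
      field_simp at hr
      linear_combination hr

theorem result :
    -- 1. one rational function for each scale
    (∀ (d : ℕ) (η : ℝ), 0 < η → ∃ K : ℝ, 1 ≤ K ∧ ∀ (t H : ℝ), 1 ≤ H →
      ∀ b : ℕ, 2 ≤ b → ∀ s n l : ℕ,
      K * (H ^ (6 * (d : ℝ) + 2 + 3 * η) * (b : ℝ) ^ ((4 * (d : ℝ) + 1 + 2 * η) * n +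
        (2 * d + η) * s)) ≤ (b : ℝ) ^ l →
      ∃ U S : ℤ[X], S ≠ 0 ∧ ∀ P Q R : ℤ[X], Family d H t P Q R → Repeats b (value t P Q R) s n l →
        ∃ p q : ℤ, 0 < q ∧ (q : ℝ) ≤ (b : ℝ) ^ (s + n) ∧
          |value t P Q R * q - p| * (b : ℝ) ^ l < 1 ∧ C q * (P * U + Q * S) = C p * (R * S)) ∧
    -- 2. three of the four numbers
    (∀ T η κ : ℝ, 0 ≤ T → 0 < η → 0 < κ → ∃ C : ℕ, ∀ t : ℝ, |t| ≤ T → κ ≤ |t| →
      κ ≤ |t - exp 1| → κ ≤ |t + exp 1| → ∀ b : ℕ, 2 ≤ b → ∀ s n L : ℕ,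
      (6 + η) * n + (2 + η) * s + C ≤ L → ∀ i j : Fin 4, i < j →
        n < blocks b (four t i) s n L ∨ n < blocks b (four t j) s n L) ∧
    (∀ η : ℝ, 0 < η → ∃ C : ℕ, ∀ b : ℕ, 2 ≤ b → ∀ s n L : ℕ,
      (6 + η) * n + (2 + η) * s + C ≤ L → ∀ i j : Fin 4, i < j →
        n < blocks b (![π + exp 1, π - exp 1, π * exp 1, π / exp 1] i) s n L ∨
        n < blocks b (![π + exp 1, π - exp 1, π * exp 1, π / exp 1] j) s n L) ∧
    -- 3. the criterion
    (∀ (d : ℕ) (ε lam : ℝ), 0 < ε → 4 * (d : ℝ) + 2 + (6 * d + 2) * ε < lam → ∀ b : ℕ, 2 ≤ b →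
      ∀ t : ℝ, (IsQuotient d t ↔ ∀ᶠ n : ℕ in atTop, ∃ P Q R : ℤ[X],
        Family d ((b : ℝ) ^ (ε * n)) t P Q R ∧ blocks b (value t P Q R) 0 n ⌈lam * n⌉₊ ≤ n)) ∧
    -- 4. the criterion for `π` and `d = 1`
    (¬ IsQuotient 1 π ↔ ∃ᶠ n : ℕ in atTop, ∀ P Q R : ℤ[X],
      Family 1 ((10 : ℝ) ^ ((n : ℝ) / 9)) π P Q R → n < blocks 10 (value π P Q R) 0 n (7 * n)) := by
  refine ⟨one, three, fun η hη => ?_, criterion, ?_⟩
  · have h3 := Real.pi_gt_three
    have h4 := Real.pi_le_four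
    have he := Real.exp_one_lt_d9
    have he0 := Real.exp_pos 1
    obtain ⟨C, hC⟩ := three 4 η (1 / 10) (by norm_num) hη (by norm_num)
    refine ⟨C, hC π ?_ ?_ ?_ ?_⟩
    · rw [abs_of_pos Real.pi_pos]; exact h4
    · rw [abs_of_pos Real.pi_pos]; linarith
    · rw [abs_of_pos (by linarith)]; linarith
    · rw [abs_of_pos (by linarith)]; linarith
  · rw [criterion 1 (1 / 9) 7 (by norm_num) (by norm_num) 10 (by norm_num) π,
      Filter.not_eventually]
    apply Filter.frequently_congr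
    filter_upwards with n
    have e1 : ⌈(7 : ℝ) * n⌉₊ = 7 * n := by
      have : (7 : ℝ) * n = ((7 * n : ℕ) : ℝ) := by push_cast; rfl
      rw [this, Nat.ceil_natCast]
    have e2 : (((10 : ℕ) : ℝ) ^ (1 / 9 * (n : ℝ))) = (10 : ℝ) ^ ((n : ℝ) / 9) := by
      push_cast
      congr 1
      ring
    rw [e1, e2]
    push Not
    rfl

end

end Pool.Agent.Results.MP_a2f59b_nt.BlocksAtEveryScale
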